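import Pool.Agent.TH125.Tw.Torsion

/-!
# Derived invariance of Hodge numbers of irregular varieties
-/

set_option autoImplicit false

namespace Pool.Agent.E8helper34.DI

open Module Finset
open Pool.Agent.TH125.Tw

variable {n : ℕ}

/-- The Euler characteristic `χ(Ω^p ⊗ L) = ∑_q (-1)^q h^{p,q}(L)`. -/
noncomputable def chi (V : Twisted n) (p : ℕ) : ℤ :=
  ∑ q ∈ range (n + 1), (-1) ^ q * (V.hodgeNumber p q : ℤ)

theorem chi_congr {V W : Twisted n} (p : ℕ)
    (h : ∀ q, V.hodgeNumber p q = W.hodgeNumber p q) : chi V p = chi W p := by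
  unfold chi
  exact sum_congr rfl fun q _ => by rw [h]

/-- `H^q(X, Ω^p ⊗ L) = 0` for `p ≤ r` and `p + q ≤ n - 3`. -/
def LowRowsVanish (V : Twisted n) (r : ℕ) : Prop :=
  ∀ p q, p ≤ r → p + q + 3 ≤ n → V.hodgeNumber p q = 0

theorem LowRowsVanish.high {V : Twisted n} {r : ℕ} (h : LowRowsVanish V r) {p q : ℕ}
    (hp : p ≤ r + 3) (hpq : n + 3 ≤ p + q) : V.hodgeNumber p q = 0 := by
  by_cases h1 : n < p ∨ n < q
  · exact V.hodge_large h1
  · push Not at h1
    rw [V.dim_eq (p := p) (q := q) (p' := n - q) (q' := n - p) (by omega) (by omega)]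
    exact h _ _ (by omega) (by omega)

theorem odd_one {V : Twisted n} {r : ℕ} (h : LowRowsVanish V r) {p q : ℕ} (hp : p ≤ r)
    (hpq : p + q + 2 = n) : V.oddDiagonal (p + 1) (q + 1) = V.hodgeNumber p q := by
  unfold Twisted.oddDiagonal
  rw [sum_eq_single 1]
  · simp
  · intro i hi hi1
    rw [mem_filter, mem_range] at hi
    obtain ⟨hi2, hi3⟩ := hi
    obtain ⟨k, hk⟩ := hi3
    exact h _ _ (by omega) (by omega)
  · intro h1
    exfalso
    apply h1
    rw [mem_filter, mem_range]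
    exact ⟨by omega, by decide⟩

theorem even_zero {V : Twisted n} {r : ℕ} (h : LowRowsVanish V r) {p q : ℕ} (hp : p ≤ r)
    (hpq : p + q = n) : V.evenDiagonal p q = 0 := by
  unfold Twisted.evenDiagonal
  refine sum_eq_zero fun i hi => ?_
  rw [mem_filter, mem_range] at hi
  exact h _ _ (by omega) (by omega)

theorem column_two {V : Twisted n} {r : ℕ} (h : LowRowsVanish V r) {a b s : ℕ} (hp : a + s ≤ r)
    (hs : a + b + 2 * s + 1 = n) :
    ∑ j ∈ range (2 * s + 1 + 1), V.hodgeNumber (a + j) (b + j) =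
      2 * V.hodgeNumber (a + s) (b + s) := by
  have h1 : ({s, s + 1} : Finset ℕ) ⊆ range (2 * s + 1 + 1) := by
    intro j hj
    rw [mem_insert, mem_singleton] at hj
    rw [mem_range]
    omega
  rw [← sum_subset h1, sum_pair (by omega)]
  · have h2 : V.hodgeNumber (a + (s + 1)) (b + (s + 1)) = V.hodgeNumber (a + s) (b + s) :=
      V.dim_eq (by omega) (by omega)
    rw [h2]
    ring
  · intro j hj hj2
    rw [mem_insert, mem_singleton, not_or] at hj2
    rw [mem_range] at hj
    rcases Nat.lt_or_gt_of_ne hj2.1 with h3 | h3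
    · exact h _ _ (by omega) (by omega)
    · have h4 : V.hodgeNumber (a + j) (b + j) =
          V.hodgeNumber (a + (2 * s + 1 - j)) (b + (2 * s + 1 - j)) :=
        V.dim_eq (by omega) (by omega)
      rw [h4]
      exact h _ _ (by omega) (by omega)

/-- The rows `p ≤ r` of twisted Hodge numbers. -/
theorem twisted_eq {V W : Twisted n} (Φ : Transform V W) {r : ℕ} (hV : LowRowsVanish V r)
    (hW : LowRowsVanish W r) {p : ℕ} (hp : p ≤ r) (q : ℕ) :
    V.hodgeNumber p q = W.hodgeNumber p q := by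
  have low : ∀ p q : ℕ, p ≤ r → p + q ≤ n → V.hodgeNumber p q = W.hodgeNumber p q := by
    intro p q hp hpq
    rcases Nat.lt_or_ge (p + q + 2) n with h | h
    · rw [hV _ _ hp (by omega), hW _ _ hp (by omega)]
    · rcases (by omega : p + q + 2 = n ∨ p + q + 1 = n ∨ p + q = n) with h2 | h2 | h2
      · have h3 := (relations Φ (p := p + 1) (q := q + 1) (by omega)).1
        rw [odd_one hV hp h2, odd_one hW hp h2] at h3
        exact h3
      · obtain ⟨s, hs⟩ : ∃ s, s = min p q := ⟨_, rfl⟩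
        obtain ⟨a, rfl⟩ : ∃ a, p = a + s := ⟨p - s, by omega⟩
        obtain ⟨b, rfl⟩ : ∃ b, q = b + s := ⟨q - s, by omega⟩
        have h3 := column_sum Φ (a := a) (b := b) (t := 2 * s + 1) (by omega) (by omega)
        rw [column_two hV hp (by omega), column_two hW hp (by omega)] at h3
        omega
      · have h3 := (relations Φ h2).2
        rw [even_zero hV hp h2, even_zero hW hp h2] at h3
        omega
  by_cases h1 : n < p ∨ n < q
  · rw [V.hodge_large h1, W.hodge_large h1]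
  · push Not at h1
    by_cases h2 : p + q ≤ n
    · exact low p q hp h2
    · rw [V.dim_eq (p := p) (q := q) (p' := n - q) (q' := n - p) (by omega) (by omega),
        W.dim_eq (p := p) (q := q) (p' := n - q) (q' := n - p) (by omega) (by omega)]
      exact low _ _ (by omega) (by omega)

/-- The cohomology of a smooth projective variety `X` of dimension `n` with complex
coefficients. -/
structure Variety (n : ℕ) where
  /-- The cohomology with complex coefficients. -/
  cohomology : Twisted n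
  connected : cohomology.hodgeNumber 0 0 = 1
  /-- The Hodge symmetry. -/
  symmetry : ∀ p q, cohomology.hodgeNumber p q = cohomology.hodgeNumber q p

/-- The Hodge numbers `h^{p,q}(X)`. -/
noncomputable def Variety.h (X : Variety n) (p q : ℕ) : ℕ := X.cohomology.hodgeNumber p q

/-- The Euler characteristics `χ(X, Ω^p)`. -/
noncomputable def Variety.chi (X : Variety n) (p : ℕ) : ℤ := DI.chi X.cohomology p

/-- The cohomology of `X` with values in a unitary flat line bundle `α` in `Pic⁰(X)`. -/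
structure FlatBundle (X : Variety n) where
  /-- The cohomology with values in `α`. -/
  cohomology : Twisted n
  /-- `χ(Ω^p) = χ(Ω^p ⊗ α)`, since `α` is in `Pic⁰(X)`. -/
  euler : ∀ p, X.chi p = DI.chi cohomology p

theorem chi_rows {X Y : Variety n} {α : FlatBundle X} {β : FlatBundle Y}
    (Φ : Transform α.cohomology β.cohomology) {r : ℕ} (hX : LowRowsVanish α.cohomology r)
    (hY : LowRowsVanish β.cohomology r) {p : ℕ} (hp : p ≤ r) : X.chi p = Y.chi p := by
  rw [α.euler, β.euler]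
  exact chi_congr p fun q => twisted_eq Φ hX hY hp q

set_option maxHeartbeats 4000000 in
theorem five_aux (f g : ℕ → ℕ → ℕ)
    (fc : ∀ p q, f p q = f q p) (gc : ∀ p q, g p q = g q p)
    (fd : ∀ p q, p ≤ 5 → q ≤ 5 → f p q = f (5 - q) (5 - p))
    (gd : ∀ p q, p ≤ 5 → q ≤ 5 → g p q = g (5 - q) (5 - p))
    (h00 : f 0 0 = g 0 0) (h01 : f 0 1 = g 0 1)
    (h21 : f 2 1 = g 2 1) (h30 : f 3 0 = g 3 0) (h41 : f 4 1 = g 4 1) (h50 : f 5 0 = g 5 0)
    (h32 : f 3 2 + 2 * f 1 0 = g 3 2 + 2 * g 1 0)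
    (h40 : f 4 0 + f 5 1 = g 4 0 + g 5 1)
    (h20 : f 2 0 + f 3 1 + f 4 2 + f 5 3 = g 2 0 + g 3 1 + g 4 2 + g 5 3)
    (h0 : f 0 0 + f 1 1 + f 2 2 + f 3 3 + f 4 4 + f 5 5 =
      g 0 0 + g 1 1 + g 2 2 + g 3 3 + g 4 4 + g 5 5)
    (hf : ∑ q ∈ range 6, (-1) ^ q * (f 0 q : ℤ) = ∑ q ∈ range 6, (-1) ^ q * (g 0 q : ℤ)) :
    (∀ p q, p ≤ 5 → q ≤ 5 → p ≠ q → f p q = g p q) ∧
    (∑ q ∈ range 6, (-1) ^ q * (f 1 q : ℤ) = ∑ q ∈ range 6, (-1) ^ q * (g 1 q : ℤ) →
      ∀ p q, p ≤ 5 → q ≤ 5 → f p q = g p q) := by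
  have f1 := fc 1 0
  have f2 := fc 2 0
  have f3 := fc 3 0
  have f4 := fc 4 0
  have f5 := fc 5 0
  have f6 := fc 2 1
  have f7 := fc 3 1
  have f8 := fc 4 1
  have f9 := fc 5 1
  have f10 := fc 3 2
  have f11 := fc 4 2
  have f12 := fc 5 2
  have f13 := fc 4 3
  have f14 := fc 5 3
  have f15 := fc 5 4
  have g1 := gc 1 0
  have g2 := gc 2 0
  have g3 := gc 3 0
  have g4 := gc 4 0
  have g5 := gc 5 0
  have g6 := gc 2 1
  have g7 := gc 3 1
  have g8 := gc 4 1
  have g9 := gc 5 1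
  have g10 := gc 3 2
  have g11 := gc 4 2
  have g12 := gc 5 2
  have g13 := gc 4 3
  have g14 := gc 5 3
  have g15 := gc 5 4
  have f16 : f 5 5 = f 0 0 := fd 5 5 (by norm_num) (by norm_num)
  have f17 : f 4 4 = f 1 1 := fd 4 4 (by norm_num) (by norm_num)
  have f18 : f 3 3 = f 2 2 := fd 3 3 (by norm_num) (by norm_num)
  have f19 : f 5 4 = f 1 0 := fd 5 4 (by norm_num) (by norm_num)
  have f20 : f 5 3 = f 2 0 := fd 5 3 (by norm_num) (by norm_num)
  have f21 : f 5 2 = f 3 0 := fd 5 2 (by norm_num) (by norm_num)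
  have f22 : f 5 1 = f 4 0 := fd 5 1 (by norm_num) (by norm_num)
  have f23 : f 4 3 = f 2 1 := fd 4 3 (by norm_num) (by norm_num)
  have f24 : f 4 2 = f 3 1 := fd 4 2 (by norm_num) (by norm_num)
  have g16 : g 5 5 = g 0 0 := gd 5 5 (by norm_num) (by norm_num)
  have g17 : g 4 4 = g 1 1 := gd 4 4 (by norm_num) (by norm_num)
  have g18 : g 3 3 = g 2 2 := gd 3 3 (by norm_num) (by norm_num)
  have g19 : g 5 4 = g 1 0 := gd 5 4 (by norm_num) (by norm_num)
  have g20 : g 5 3 = g 2 0 := gd 5 3 (by norm_num) (by norm_num)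
  have g21 : g 5 2 = g 3 0 := gd 5 2 (by norm_num) (by norm_num)
  have g22 : g 5 1 = g 4 0 := gd 5 1 (by norm_num) (by norm_num)
  have g23 : g 4 3 = g 2 1 := gd 4 3 (by norm_num) (by norm_num)
  have g24 : g 4 2 = g 3 1 := gd 4 2 (by norm_num) (by norm_num)
  simp only [sum_range_succ, range_zero, sum_empty, zero_add] at hf
  norm_num at hf
  have k40 : f 4 0 = g 4 0 := by omega
  have k20 : f 2 0 = g 2 0 := by omega
  have k31 : f 3 1 = g 3 1 := by omega
  have k32 : f 3 2 = g 3 2 := by omega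
  refine ⟨?_, fun he => ?_⟩
  · intro p q hp hq hpq
    interval_cases p <;> interval_cases q <;> omega
  · simp only [sum_range_succ, range_zero, sum_empty, zero_add] at he
    norm_num at he
    have k1 : f 1 1 = g 1 1 := by omega
    have k2 : f 2 2 = g 2 2 := by omega
    intro p q hp hq
    interval_cases p <;> interval_cases q <;> omega

/-- **Fivefolds.** -/
theorem fivefolds {X Y : Variety 5} (Φ : Transform X.cohomology Y.cohomology)
    (h01 : X.h 0 1 = Y.h 0 1) (h0 : X.chi 0 = Y.chi 0) :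
    (∀ p q, p ≠ q → X.h p q = Y.h p q) ∧
    (X.chi 1 = Y.chi 1 → ∀ p q, X.h p q = Y.h p q) := by
  have h00 : X.h 0 0 = Y.h 0 0 := X.connected.trans Y.connected.symm
  have r32 := relations Φ (p := 3) (q := 2) rfl
  have r41 := relations Φ (p := 4) (q := 1) rfl
  have r50 := relations Φ (p := 5) (q := 0) rfl
  have c40 := column_sum Φ (a := 4) (b := 0) (t := 1) (Or.inr rfl) rfl
  have c20 := column_sum Φ (a := 2) (b := 0) (t := 3) (Or.inr rfl) rfl
  have c00 := column_sum Φ (a := 0) (b := 0) (t := 5) (Or.inr rfl) rfl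
  have e1 : (range (min 3 2 + 1)).filter (fun i => Odd i) = {1} := by decide
  have e2 : (range (min 3 2 + 1)).filter (fun i => Even i ∧ 2 ≤ i) = {2} := by decide
  have e3 : (range (min 4 1 + 1)).filter (fun i => Odd i) = {1} := by decide
  have e4 : (range (min 4 1 + 1)).filter (fun i => Even i ∧ 2 ≤ i) = ∅ := by decide
  have e5 : (range (min 5 0 + 1)).filter (fun i => Odd i) = ∅ := by decide
  have e6 : (range (min 5 0 + 1)).filter (fun i => Even i ∧ 2 ≤ i) = ∅ := by decide
  simp only [Twisted.oddDiagonal, Twisted.evenDiagonal, e1, e2, e3, e4, e5, e6,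
    sum_singleton, sum_empty, mul_zero, add_zero] at r32 r41 r50
  norm_num at r32 r41 r50
  simp only [sum_range_succ, range_zero, sum_empty, zero_add, add_zero] at c40 c20 c00
  norm_num at c40 c20 c00
  obtain ⟨k1, k2⟩ := five_aux X.h Y.h X.symmetry Y.symmetry
    (fun p q hp hq => X.cohomology.dim_eq (by omega) (by omega))
    (fun p q hp hq => Y.cohomology.dim_eq (by omega) (by omega)) h00 h01 r32.1 r41.1 r41.2 r50
    r32.2 c40 c20 c00 h0
  have large : ∀ p q : ℕ, ¬ (p ≤ 5 ∧ q ≤ 5) → ∀ Z : Variety 5, Z.h p q = 0 :=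
    fun p q hpq Z => Z.cohomology.hodge_large (by omega)
  refine ⟨fun p q hpq => ?_, fun h1 p q => ?_⟩
  · by_cases h : p ≤ 5 ∧ q ≤ 5
    · exact k1 p q h.1 h.2 hpq
    · rw [large p q h, large p q h]
  · by_cases h : p ≤ 5 ∧ q ≤ 5
    · exact k2 h1 p q h.1 h.2
    · rw [large p q h, large p q h]

end Pool.Agent.E8helper34.DI
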