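import Pool.Agent.R929.DH.Main

/-!
# Limits of subspaces
-/

open scoped ComplexConjugate Topology
open Module Filter

namespace Pool.Agent.E8helper34.DI

/-- A sequence of subspaces of dimension at least `d` has a subsequence with a limit subspace of
dimension `d`. -/
theorem limit_subspace {E : Type*} [NormedAddCommGroup E] [InnerProductSpace ℂ E]
    [FiniteDimensional ℂ E] (P : ℕ → Submodule ℂ E) (d : ℕ) (hd : ∀ i, d ≤ finrank ℂ (P i)) :
    ∃ (P₀ : Submodule ℂ E) (σ : ℕ → ℕ), StrictMono σ ∧ finrank ℂ P₀ = d ∧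
      ∀ x ∈ P₀, ∃ y : ℕ → E, (∀ i, y i ∈ P (σ i)) ∧ Tendsto y atTop (𝓝 x) := by
  classical
  have h1 : ∀ i, ∃ e : Fin d → E, Orthonormal ℂ e ∧ ∀ j, e j ∈ P i := by
    intro i
    let b := stdOrthonormalBasis ℂ (P i)
    refine ⟨fun j => ((b (Fin.castLE (hd i) j) : P i) : E), ?_, fun j => (b _).2⟩
    exact (b.orthonormal.comp (Fin.castLE (hd i)) (Fin.castLE_injective _)).comp_linearIsometry
      (P i).subtypeₗᵢ
  choose e he hmem using h1
  have hball : ∀ i, e i ∈ Metric.closedBall (0 : Fin d → E) 1 := by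
    intro i
    rw [mem_closedBall_zero_iff, pi_norm_le_iff_of_nonneg zero_le_one]
    intro j
    exact ((he i).1 j).le
  have : ProperSpace E := FiniteDimensional.proper ℂ E
  obtain ⟨a, -, σ, hσ, ha⟩ := (isCompact_closedBall (0 : Fin d → E) 1).tendsto_subseq hball
  have haj : ∀ j, Tendsto (fun i => e (σ i) j) atTop (𝓝 (a j)) := fun j =>
    (tendsto_pi_nhds.1 ha) j
  have hon : Orthonormal ℂ a := by
    rw [orthonormal_iff_ite]
    intro j k
    have h2 : Tendsto (fun i => inner ℂ (e (σ i) j) (e (σ i) k)) atTop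
        (𝓝 (inner ℂ (a j) (a k))) := (haj j).inner (haj k)
    have h3 : (fun i => inner ℂ (e (σ i) j) (e (σ i) k)) = fun _ => if j = k then (1 : ℂ) else 0 := by
      funext i
      exact (orthonormal_iff_ite.1 (he (σ i))) j k
    rw [h3] at h2
    exact tendsto_nhds_unique h2 tendsto_const_nhds
  refine ⟨Submodule.span ℂ (Set.range a), σ, hσ, ?_, ?_⟩
  · rw [finrank_span_eq_card hon.linearIndependent, Fintype.card_fin]
  · intro x hx
    obtain ⟨c, rfl⟩ := (Submodule.mem_span_range_iff_exists_fun ℂ).1 hx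
    refine ⟨fun i => ∑ j, c j • e (σ i) j, fun i => ?_, ?_⟩
    · exact Submodule.sum_mem _ fun j _ => Submodule.smul_mem _ _ (hmem _ _)
    · exact tendsto_finsetSum _ fun j _ => (haj j).const_smul (c j)

/-- A map which sends `S` into `T` has a kernel on `S` of dimension at least `dim S - dim T`. -/
theorem finrank_le_ker {V : Type*} [AddCommGroup V] [Module ℂ V] [FiniteDimensional ℂ V]
    (f : V →ₗ[ℂ] V) (S T : Submodule ℂ V) (h : ∀ x ∈ S, f x ∈ T) :
    finrank ℂ S ≤ finrank ℂ (S ⊓ LinearMap.ker f : Submodule ℂ V) + finrank ℂ T := by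
  have h1 := LinearMap.finrank_range_add_finrank_ker (f.domRestrict S)
  have h2 : finrank ℂ (LinearMap.range (f.domRestrict S)) ≤ finrank ℂ T := by
    refine Submodule.finrank_mono ?_
    rintro _ ⟨x, rfl⟩
    exact h x x.2
  have h3 : finrank ℂ (LinearMap.ker (f.domRestrict S)) =
      finrank ℂ (S ⊓ LinearMap.ker f : Submodule ℂ V) := by
    have e : (LinearMap.ker (f.domRestrict S)).map S.subtype = S ⊓ LinearMap.ker f := by
      ext x
      constructor
      · rintro ⟨y, hy, rfl⟩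
        exact ⟨y.2, hy⟩
      · rintro ⟨hx1, hx2⟩
        exact ⟨⟨x, hx1⟩, hx2, rfl⟩
    rw [← e, Submodule.finrank_map_subtype_eq]
  omega

/-- Rank and nullity of a map on a subspace. -/
theorem finrank_map_ker {V : Type*} [AddCommGroup V] [Module ℂ V] [FiniteDimensional ℂ V]
    (f : V →ₗ[ℂ] V) (S : Submodule ℂ V) :
    finrank ℂ (S.map f) + finrank ℂ (S ⊓ LinearMap.ker f : Submodule ℂ V) = finrank ℂ S := by
  have h1 := LinearMap.finrank_range_add_finrank_ker (f.domRestrict S)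
  rw [LinearMap.range_domRestrict] at h1
  have h3 : finrank ℂ (LinearMap.ker (f.domRestrict S)) =
      finrank ℂ (S ⊓ LinearMap.ker f : Submodule ℂ V) := by
    have e : (LinearMap.ker (f.domRestrict S)).map S.subtype = S ⊓ LinearMap.ker f := by
      ext x
      constructor
      · rintro ⟨y, hy, rfl⟩
        exact ⟨y.2, hy⟩
      · rintro ⟨hx1, hx2⟩
        exact ⟨⟨x, hx1⟩, hx2, rfl⟩
    rw [← e, Submodule.finrank_map_subtype_eq]
  omega

/-- A complement inside a subspace. -/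
theorem exists_compl_in {V : Type*} [AddCommGroup V] [Module ℂ V] [FiniteDimensional ℂ V]
    {G S : Submodule ℂ V} (h : G ≤ S) :
    ∃ C : Submodule ℂ V, C ≤ S ∧ G ⊓ C = ⊥ ∧ finrank ℂ G + finrank ℂ C = finrank ℂ S := by
  obtain ⟨C', hC⟩ := Submodule.exists_isCompl G
  have h1 : G ⊔ S ⊓ C' = S := by
    have : G ⊔ C' ⊓ S = (G ⊔ C') ⊓ S := (sup_inf_assoc_of_le C' h).symm
    rw [inf_comm, this, hC.sup_eq_top, top_inf_eq]
  have h2 : G ⊓ (S ⊓ C') = ⊥ := by
    rw [eq_bot_iff]
    rintro x ⟨hx1, -, hx2⟩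
    have : x ∈ G ⊓ C' := ⟨hx1, hx2⟩
    rwa [hC.inf_eq_bot] at this
  refine ⟨S ⊓ C', inf_le_left, h2, ?_⟩
  have h3 := Submodule.finrank_sup_add_finrank_inf_eq G (S ⊓ C')
  rw [h1, h2, finrank_bot, add_zero] at h3
  exact h3.symm

end Pool.Agent.E8helper34.DI
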