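import Pool.Agent.R929.DH.Main

/-!
# Pluricanonical divisors
-/

open scoped ComplexConjugate
open Module Polynomial

namespace Pool.Agent.E8helper34.DI

open Pool.Agent.W539.DI Pool.Agent.R929.DH

section defs

variable {n : ℕ}

/-- The holomorphic Euler characteristic `χ(O) = ∑ (-1)^q h^{0,q}`. -/
noncomputable def chiO (X : KRing n) : ℤ :=
  ∑ q ∈ Finset.range (n + 1), (-1) ^ q * (X.h 0 q : ℤ)

/-- The topological Euler number `∑ (-1)^{p+q} h^{p,q}`. -/
noncomputable def eulerNumber (X : KRing n) : ℤ :=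
  ∑ p ∈ Finset.range (n + 1), ∑ q ∈ Finset.range (n + 1), (-1) ^ (p + q) * (X.h p q : ℤ)

/-- The sum `∑ (-1)^{p+q} (2p - n)² h^{p,q}`. -/
noncomputable def secondMoment (X : KRing n) : ℤ :=
  ∑ p ∈ Finset.range (n + 1), ∑ q ∈ Finset.range (n + 1),
    (-1) ^ (p + q) * ((2 * (p : ℤ) - n) ^ 2 * (X.h p q : ℤ))

/-- The polynomial `∑_j t^j / j! ∫ K^j td_{n+1-j}`, `K = -c₁`; by the theorem of Hirzebruch, Riemann
and Roch its value at an integer `t` is `χ(X, tK)` if `td` are the Todd classes. -/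
noncomputable def rrPoly (X : KRing (n + 1)) (td : ℕ → X.R) : ℂ[X] :=
  ∑ j ∈ Finset.range (n + 2), C (X.tr ((-X.c) ^ j * td (n + 1 - j)) / (j.factorial : ℂ)) * Polynomial.X ^ j

/-- The Chern classes and Todd classes of a smooth projective variety `X` of dimension `n + 1`, with
the theorems which relate them to the Hodge numbers. -/
structure Chern (X : KRing (n + 1)) where
  /-- the Chern classes -/
  c : ℕ → X.R
  mem : ∀ i : ℕ, c i ∈ X.H (i, i)
  zero : c 0 = 1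
  one : c 1 = X.c
  /-- the Todd classes -/
  td : ℕ → X.R
  td_mem : ∀ i : ℕ, td i ∈ X.H (i, i)
  td_zero : td 0 = 1
  /-- Gauss-Bonnet: the top Chern number is the Euler number -/
  gauss_bonnet : X.tr (c (n + 1)) = eulerNumber X
  /-- Libgober-Wood: `∑ (-1)^{p+q} (p - N/2)² h^{p,q} = (N/12) c_N + (1/6) c₁ c_{N-1}`,
  `N = dim X = n + 1` -/
  libgober_wood : 3 * (secondMoment X : ℂ) = ((n + 1 : ℕ) : ℂ) * X.tr (c (n + 1)) +
    2 * X.tr (c 1 * c n)
  /-- Hirzebruch-Riemann-Roch for the structure sheaf -/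
  riemann_roch : X.tr (td (n + 1)) = chiO X
  /-- Serre duality: `χ(X, (1 - t) K) = (-1)^N χ(X, tK)` -/
  serre : ∀ t : ℂ, (rrPoly X td).eval (1 - t) = (-1) ^ (n + 1) * (rrPoly X td).eval t

/-- The `Z i` are the connected components of a smooth divisor of the linear system `|mK|` (a
pluricanonical divisor if `m > 0`, a plurianticanonical divisor if `m < 0`):

* `chi`: `χ(Z, O) = χ(X, O) - χ(X, O(-Z)) = χ(X, O) - χ(X, -mK)`;
* `euler`: the Euler number of `Z` is `∫ mK c(X) / (1 + mK) = ∑_j (-1)^j m^(j+1) ∫ K^(j+1) c_{n-j}`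
  (adjunction formula). -/
structure IsDivisor {X : KRing (n + 1)} (A : Chern X) (m : ℤ) {ι : Type} [Fintype ι]
    (Z : ι → KRing n) : Prop where
  chi : ((∑ i, chiO (Z i) : ℤ) : ℂ) = (rrPoly X A.td).eval 0 - (rrPoly X A.td).eval (-(m : ℂ))
  euler : ((∑ i, eulerNumber (Z i) : ℤ) : ℂ) = ∑ j ∈ Finset.range (n + 1),
    (-1) ^ j * (m : ℂ) ^ (j + 1) * X.tr ((-X.c) ^ (j + 1) * A.c (n - j))

/-- For every `m` in `M` the linear systems `|mK_X|` and `|mK_Y|` contain smooth divisors whose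
connected components `Z i` and `Z' i` are related to each other by `P`. -/
def Divisors {X Y : KRing (n + 1)} (A : Chern X) (B : Chern Y) (M : Set ℤ)
    (P : KRing n → KRing n → Prop) : Prop :=
  ∀ m ∈ M, ∃ (ι : Type) (_ : Fintype ι) (Z Z' : ι → KRing n),
    IsDivisor A m Z ∧ IsDivisor B m Z' ∧ ∀ i, P (Z i) (Z' i)

end defs

variable {n : ℕ}

/-- A sum over `p` in `0, …, n` of Hodge numbers, shifted. -/
theorem sum_shift (X : KRing n) (g : ℤ → ℤ) (q : ℕ) (hq : q ≤ n) :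
    ∑ p ∈ Finset.range (n + 1), g ((p : ℤ) - q) * (X.h p q : ℤ) =
      ∑ i ∈ Finset.Icc (-(n : ℤ)) n, g i * (X.h (i + q) q : ℤ) := by
  have h1 : ∑ p ∈ Finset.range (n + 1), g ((p : ℤ) - q) * (X.h p q : ℤ) =
      ∑ i ∈ (Finset.range (n + 1)).image (fun p : ℕ => (p : ℤ) - q), g i * (X.h (i + q) q : ℤ) := by
    rw [Finset.sum_image]
    · refine Finset.sum_congr rfl fun p _ => ?_
      rw [sub_add_cancel]
    · intro a _ b _ hab
      have : (a : ℤ) - q = (b : ℤ) - q := hab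
      omega
  rw [h1]
  refine Finset.sum_subset ?_ ?_
  · intro i hi
    rw [Finset.mem_image] at hi
    obtain ⟨p, hp, rfl⟩ := hi
    rw [Finset.mem_range] at hp
    rw [Finset.mem_Icc]
    omega
  · intro i _ hi2
    have : X.h (i + q) q = 0 := by
      apply X.h_zero
      by_contra hcon
      push Not at hcon
      apply hi2
      rw [Finset.mem_image]
      refine ⟨(i + q).toNat, ?_, ?_⟩
      · rw [Finset.mem_range]
        omega
      · omega
    rw [this]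
    simp

theorem euler_columns (X : KRing n) : eulerNumber X =
    ∑ i ∈ Finset.Icc (-(n : ℤ)) n, (if Even i then 1 else -1) *
      ((∑ q ∈ Finset.range (n + 1), X.h (i + q) q : ℕ) : ℤ) := by
  unfold eulerNumber
  rw [Finset.sum_comm]
  have h1 : ∀ q ∈ Finset.range (n + 1), ∑ p ∈ Finset.range (n + 1),
      (-1) ^ (p + q) * (X.h p q : ℤ) = ∑ i ∈ Finset.Icc (-(n : ℤ)) n,
        (if Even i then 1 else -1) * (X.h (i + q) q : ℤ) := by
    intro q hq
    rw [Finset.mem_range] at hq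
    rw [← sum_shift X (fun i => if Even i then 1 else -1) q (by omega)]
    refine Finset.sum_congr rfl fun p _ => ?_
    congr 1
    by_cases h : Even ((p : ℤ) - q)
    · rw [if_pos h]
      refine Even.neg_one_pow ?_
      rw [Int.even_sub] at h
      rw [Nat.even_add]
      exact_mod_cast h
    · rw [if_neg h]
      refine Odd.neg_one_pow ?_
      rw [Int.even_sub] at h
      rw [← Nat.not_even_iff_odd, Nat.even_add]
      exact_mod_cast h
  rw [Finset.sum_congr rfl h1, Finset.sum_comm]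
  refine Finset.sum_congr rfl fun i _ => ?_
  rw [← Finset.mul_sum]
  push_cast
  rfl

theorem euler_eq {X Y : KRing n} (Φ : FM X Y) : eulerNumber X = eulerNumber Y := by
  rw [euler_columns, euler_columns]
  refine Finset.sum_congr rfl fun i _ => ?_
  congr 2
  have h := Φ.total_all i 0 ((Finset.range (n + 1)).image (fun q : ℕ => (q : ℤ))) (by
    intro k hk
    rw [Finset.mem_image] at hk
    by_contra hcon
    push Not at hcon
    apply hk
    refine ⟨k.toNat, ?_, ?_⟩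
    · rw [Finset.mem_range]
      omega
    · omega)
  have hinj : Set.InjOn (fun q : ℕ => (q : ℤ)) (Finset.range (n + 1)) := by
    intro a _ b _ hab
    have hab' : (a : ℤ) = b := hab
    exact_mod_cast hab'
  rw [Finset.sum_image hinj, Finset.sum_image hinj] at h
  simpa using h

variable {X Y : KRing (n + 1)}

theorem infinite_cast {M : Set ℤ} (hM : M.Infinite) : ((fun m : ℤ => (m : ℂ)) '' M).Infinite :=
  hM.image (fun a _ b _ h => by exact_mod_cast h)

theorem Divisors.mono {A : Chern X} {B : Chern Y} {M : Set ℤ} {P Q : KRing n → KRing n → Prop}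
    (h : Divisors A B M P) (hPQ : ∀ Z Z', P Z Z' → Q Z Z') : Divisors A B M Q := by
  intro m hm
  obtain ⟨ι, hι, Z, Z', h1, h2, h3⟩ := h m hm
  exact ⟨ι, hι, Z, Z', h1, h2, fun i => hPQ _ _ (h3 i)⟩

/-- The Chern number `c₁ c_n` (`dim X = n + 1`). -/
theorem c1cn_eq (A : Chern X) (B : Chern Y) {M : Set ℤ} (hM : M.Infinite)
    (hZ : Divisors A B M fun Z Z' => eulerNumber Z = eulerNumber Z') :
    X.tr (A.c 1 * A.c n) = Y.tr (B.c 1 * B.c n) := by
  let P : ℂ[X] := ∑ j ∈ Finset.range (n + 1),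
    C ((-1) ^ j * (X.tr ((-X.c) ^ (j + 1) * A.c (n - j)) -
      Y.tr ((-Y.c) ^ (j + 1) * B.c (n - j)))) * Polynomial.X ^ (j + 1)
  have hev : ∀ t : ℂ, P.eval t = ∑ j ∈ Finset.range (n + 1),
      (-1) ^ j * t ^ (j + 1) * X.tr ((-X.c) ^ (j + 1) * A.c (n - j)) -
      ∑ j ∈ Finset.range (n + 1), (-1) ^ j * t ^ (j + 1) *
        Y.tr ((-Y.c) ^ (j + 1) * B.c (n - j)) := by
    intro t
    rw [← Finset.sum_sub_distrib]
    show (∑ j ∈ Finset.range (n + 1), _ : ℂ[X]).eval t = _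
    rw [Polynomial.eval_finsetSum]
    refine Finset.sum_congr rfl fun j _ => ?_
    rw [Polynomial.eval_mul, Polynomial.eval_C, Polynomial.eval_pow, Polynomial.eval_X]
    ring
  have hP : P = 0 := by
    refine Polynomial.eq_zero_of_infinite_isRoot P ((infinite_cast hM).mono ?_)
    rintro _ ⟨m, hm, rfl⟩
    obtain ⟨ι, _, Z, Z', h1, h2, h3⟩ := hZ m hm
    show P.eval (m : ℂ) = 0
    rw [hev, ← h1.euler, ← h2.euler, Finset.sum_congr rfl fun i _ => h3 i, sub_self]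
  have hc : P.coeff 1 = X.tr ((-X.c) * A.c n) - Y.tr ((-Y.c) * B.c n) := by
    show (∑ j ∈ Finset.range (n + 1), _ : ℂ[X]).coeff 1 = _
    rw [Polynomial.finsetSum_coeff, Finset.sum_eq_single 0]
    · simp
    · intro j _ hj
      rw [Polynomial.coeff_C_mul, Polynomial.coeff_X_pow, if_neg (by omega), mul_zero]
    · intro h
      exact absurd (Finset.mem_range.2 (Nat.succ_pos n)) h
  rw [hP, Polynomial.coeff_zero, neg_mul, neg_mul, map_neg, map_neg] at hc
  rw [A.one, B.one]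
  linear_combination hc

theorem secondMoment_eq (Φ : FM X Y) (A : Chern X) (B : Chern Y) {M : Set ℤ} (hM : M.Infinite)
    (hZ : Divisors A B M fun Z Z' => eulerNumber Z = eulerNumber Z') :
    secondMoment X = secondMoment Y := by
  have h1 := c1cn_eq A B hM hZ
  have h2 := A.libgober_wood
  have h3 := B.libgober_wood
  rw [A.gauss_bonnet, h1, euler_eq Φ] at h2
  rw [B.gauss_bonnet, ← h2] at h3
  have h4 : (secondMoment X : ℂ) = secondMoment Y := by linear_combination (-1 / 3 : ℂ) * h3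
  exact_mod_cast h4

theorem rr_zero (A : Chern X) : (rrPoly X A.td).eval 0 = chiO X := by
  rw [← A.riemann_roch]
  unfold rrPoly
  rw [Polynomial.eval_finsetSum, Finset.sum_eq_single 0]
  · simp
  · intro j _ hj
    rw [Polynomial.eval_mul, Polynomial.eval_pow, Polynomial.eval_X, zero_pow hj, mul_zero]
  · intro h
    exact absurd (Finset.mem_range.2 (by omega)) h

/-- Odd dimension: `χ(O)` is determined by the pluricanonical divisors. -/
theorem chiO_eq (hn : Even n) (A : Chern X) (B : Chern Y) {M : Set ℤ} (hM : M.Infinite)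
    (hZ : Divisors A B M fun Z Z' => chiO Z = chiO Z') :
    chiO X = chiO Y := by
  let Q : ℂ[X] := rrPoly X A.td - rrPoly Y B.td
  have hQe : ∀ t : ℂ, Q.eval t = (rrPoly X A.td).eval t - (rrPoly Y B.td).eval t := fun t =>
    Polynomial.eval_sub _ _ _
  have hconst : Q.comp (-Polynomial.X) - C (Q.eval 0) = 0 := by
    refine Polynomial.eq_zero_of_infinite_isRoot _ ((infinite_cast hM).mono ?_)
    rintro _ ⟨m, hm, rfl⟩
    obtain ⟨ι, _, Z, Z', h1, h2, h3⟩ := hZ m hm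
    show (Q.comp (-Polynomial.X) - C (Q.eval 0)).eval (m : ℂ) = 0
    rw [Polynomial.eval_sub, Polynomial.eval_comp, Polynomial.eval_neg, Polynomial.eval_X,
      Polynomial.eval_C, hQe, hQe]
    have h4 := h1.chi
    rw [Finset.sum_congr rfl fun i _ => h3 i, h2.chi] at h4
    linear_combination h4
  have h1 : ∀ t : ℂ, Q.eval t = Q.eval 0 := by
    intro t
    have h2 := congrArg (Polynomial.eval (-t)) hconst
    rw [Polynomial.eval_sub, Polynomial.eval_comp, Polynomial.eval_neg, Polynomial.eval_X,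
      Polynomial.eval_C, Polynomial.eval_zero, neg_neg] at h2
    linear_combination h2
  have h2 : Q.eval (1 - 0) = -Q.eval 0 := by
    rw [hQe, hQe, A.serre, B.serre, Odd.neg_one_pow hn.add_one]
    ring
  rw [h1] at h2
  have h3 : Q.eval 0 = 0 := by linear_combination (1 / 2 : ℂ) * h2
  rw [hQe, rr_zero, rr_zero, sub_eq_zero] at h3
  exact_mod_cast h3

theorem five_arith {a00 a10 a20 a30 a40 a50 a11 a21 a31 a41 a22 a32 : ℕ}
    {b00 b10 b20 b30 b40 b50 b11 b21 b31 b41 b22 b32 : ℕ} (h00 : a00 = b00) (h10 : a10 = b10)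
    (h30 : a30 = b30) (h41 : a41 = b41) (h21 : a21 = b21)
    (h32 : a32 + 2 * a10 = b32 + 2 * b10)
    (t0 : a00 + (a11 + (a22 + (a22 + (a11 + a00)))) = b00 + (b11 + (b22 + (b22 + (b11 + b00)))))
    (t2 : a20 + (a31 + (a31 + a20)) = b20 + (b31 + (b31 + b20)))
    (t4 : a40 + a40 = b40 + b40) (t5 : a50 = b50)
    (hchi : (a00 : ℤ) - a10 + a20 - a30 + a40 - a50 = b00 - b10 + b20 - b30 + b40 - b50)
    (hsec : 50 * (a00 : ℤ) - 68 * a10 + 52 * a20 - 52 * a30 + 68 * a40 - 50 * a50 + 18 * a11 -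
      20 * a21 + 20 * a31 - 18 * a41 + 2 * a22 - 2 * a32 =
      50 * (b00 : ℤ) - 68 * b10 + 52 * b20 - 52 * b30 + 68 * b40 - 50 * b50 + 18 * b11 -
      20 * b21 + 20 * b31 - 18 * b41 + 2 * b22 - 2 * b32) :
    a00 = b00 ∧ a50 = b50 ∧ a40 = b40 ∧ a32 = b32 ∧ a20 = b20 ∧ a31 = b31 ∧ a11 = b11 ∧
      a22 = b22 := by
  have c40 : a40 = b40 := by omega
  have c32 : a32 = b32 := by omega
  have c20 : a20 = b20 := by omega
  have c31 : a31 = b31 := by omega
  have c11 : a11 = b11 := by omega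
  exact ⟨h00, t5, c40, c32, c20, c31, c11, by omega⟩

/-- **Fivefolds.** -/
theorem five_all {X Y : KRing 5} (Φ : FM X Y) (h10 : X.h 1 0 = Y.h 1 0)
    (hchi : chiO X = chiO Y) (hsec : secondMoment X = secondMoment Y) (p q : ℤ) :
    X.h p q = Y.h p q := by
  by_cases hout : p < 0 ∨ q < 0 ∨ ((5 : ℕ) : ℤ) < p ∨ ((5 : ℕ) : ℤ) < q
  · rw [X.h_zero hout, Y.h_zero hout]
  push_cast at hout
  obtain ⟨e30, e41, e21⟩ := Φ.edge (by norm_num)
  obtain ⟨-, a2⟩ := Φ.hodge_sums 3 2 rfl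
  rw [X.sum_first _ _ (by norm_num) (by norm_num), Y.sum_first _ _ (by norm_num) (by norm_num)]
    at a2
  norm_num at e30 e41 e21 a2
  have t0 := Φ.total_all 0 0 {0, 1, 2, 3, 4, 5} (by
    intro k hk
    simp only [Finset.mem_insert, Finset.mem_singleton] at hk
    push_cast
    omega)
  have t2 := Φ.total_all 2 0 {0, 1, 2, 3} (by
    intro k hk
    simp only [Finset.mem_insert, Finset.mem_singleton] at hk
    push_cast
    omega)
  have t4 := Φ.total_all 4 0 {0, 1} (by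
    intro k hk
    simp only [Finset.mem_insert, Finset.mem_singleton] at hk
    push_cast
    omega)
  have t5 := Φ.total_all 5 0 {0} (by
    intro k hk
    simp only [Finset.mem_singleton] at hk
    push_cast
    omega)
  simp only [Finset.sum_insert (show (0 : ℤ) ∉ ({1, 2, 3, 4, 5} : Finset ℤ) by decide),
    Finset.sum_insert (show (1 : ℤ) ∉ ({2, 3, 4, 5} : Finset ℤ) by decide),
    Finset.sum_insert (show (2 : ℤ) ∉ ({3, 4, 5} : Finset ℤ) by decide),
    Finset.sum_insert (show (3 : ℤ) ∉ ({4, 5} : Finset ℤ) by decide),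
    Finset.sum_insert (show (4 : ℤ) ∉ ({5} : Finset ℤ) by decide), Finset.sum_singleton] at t0
  simp only [Finset.sum_insert (show (0 : ℤ) ∉ ({1, 2, 3} : Finset ℤ) by decide),
    Finset.sum_insert (show (1 : ℤ) ∉ ({2, 3} : Finset ℤ) by decide),
    Finset.sum_insert (show (2 : ℤ) ∉ ({3} : Finset ℤ) by decide), Finset.sum_singleton] at t2
  simp only [Finset.sum_insert (show (0 : ℤ) ∉ ({1} : Finset ℤ) by decide),
    Finset.sum_singleton] at t4
  simp only [Finset.sum_singleton] at t5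
  norm_num at t0 t2 t4 t5
  have sw : ∀ (Z : KRing 5) (p q : ℤ), Z.h p q = Z.h q p := fun Z p q => Z.h_swap p q
  have s1 : ∀ (Z : KRing 5) (p q : ℤ) (k : ℕ), p + q + k = 5 → Z.h (p + k) (q + k) = Z.h p q :=
    fun Z p q k h => (Z.h_symm k (by push_cast; exact h)).symm
  have g : ∀ Z : KRing 5, Z.h 5 5 = Z.h 0 0 ∧ Z.h 4 4 = Z.h 1 1 ∧ Z.h 3 3 = Z.h 2 2 ∧
      Z.h 5 4 = Z.h 1 0 ∧ Z.h 4 3 = Z.h 2 1 ∧ Z.h 5 3 = Z.h 2 0 ∧ Z.h 4 2 = Z.h 3 1 ∧
      Z.h 5 2 = Z.h 3 0 ∧ Z.h 5 1 = Z.h 4 0 := by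
    intro Z
    have r1 := s1 Z 0 0 5 (by norm_num)
    have r2 := s1 Z 1 1 3 (by norm_num)
    have r3 := s1 Z 2 2 1 (by norm_num)
    have r4 := s1 Z 1 0 4 (by norm_num)
    have r5 := s1 Z 2 1 2 (by norm_num)
    have r6 := s1 Z 2 0 3 (by norm_num)
    have r7 := s1 Z 3 1 1 (by norm_num)
    have r8 := s1 Z 3 0 2 (by norm_num)
    have r9 := s1 Z 4 0 1 (by norm_num)
    norm_num at r1 r2 r3 r4 r5 r6 r7 r8 r9
    exact ⟨r1, r2, r3, r4, r5, r6, r7, r8, r9⟩
  have w : ∀ Z : KRing 5, Z.h 0 1 = Z.h 1 0 ∧ Z.h 0 2 = Z.h 2 0 ∧ Z.h 0 3 = Z.h 3 0 ∧ Z.h 0 4 = Z.h 4 0 ∧ Z.h 0 5 = Z.h 5 0 ∧ Z.h 1 2 = Z.h 2 1 ∧ Z.h 1 3 = Z.h 3 1 ∧ Z.h 1 4 = Z.h 4 1 ∧ Z.h 1 5 = Z.h 5 1 ∧ Z.h 2 3 = Z.h 3 2 ∧ Z.h 2 4 = Z.h 4 2 ∧ Z.h 2 5 = Z.h 5 2 ∧ Z.h 3 4 = Z.h 4 3 ∧ Z.h 3 5 = Z.h 5 3 ∧ Z.h 4 5 = Z.h 5 4 :=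
    fun Z => ⟨sw Z 0 1, sw Z 0 2, sw Z 0 3, sw Z 0 4, sw Z 0 5, sw Z 1 2, sw Z 1 3, sw Z 1 4, sw Z 1 5, sw Z 2 3, sw Z 2 4, sw Z 2 5, sw Z 3 4, sw Z 3 5, sw Z 4 5⟩
  have hc : ∀ Z : KRing 5, chiO Z = (Z.h 0 0 : ℤ) - Z.h 1 0 + Z.h 2 0 - Z.h 3 0 + Z.h 4 0 -
      Z.h 5 0 := by
    intro Z
    obtain ⟨w01, w02, w03, w04, w05, w12, w13, w14, w15, w23, w24, w25, w34, w35, w45⟩ := w Z
    unfold chiO
    simp only [Finset.sum_range_succ, Finset.sum_range_zero]
    norm_num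
    rw [w01, w02, w03, w04, w05]
    ring
  have hs : ∀ Z : KRing 5, secondMoment Z = 50 * (Z.h 0 0 : ℤ) - 68 * Z.h 1 0 + 52 * Z.h 2 0 -
      52 * Z.h 3 0 + 68 * Z.h 4 0 - 50 * Z.h 5 0 + 18 * Z.h 1 1 - 20 * Z.h 2 1 + 20 * Z.h 3 1 -
      18 * Z.h 4 1 + 2 * Z.h 2 2 - 2 * Z.h 3 2 := by
    intro Z
    obtain ⟨w01, w02, w03, w04, w05, w12, w13, w14, w15, w23, w24, w25, w34, w35, w45⟩ := w Z
    obtain ⟨g55, g44, g33, g54, g43, g53, g42, g52, g51⟩ := g Z
    unfold secondMoment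
    simp only [Finset.sum_range_succ, Finset.sum_range_zero]
    norm_num
    rw [w01, w02, w03, w04, w05, w12, w13, w14, w15, w23, w24, w25, w34, w35, w45]
    rw [g55, g44, g33, g54, g43, g53, g42, g52, g51]
    ring
  rw [hc, hc] at hchi
  rw [hs, hs] at hsec
  obtain ⟨g55, g44, g33, g54, g43, g53, g42, g52, g51⟩ := g X
  obtain ⟨k55, k44, k33, k54, k43, k53, k42, k52, k51⟩ := g Y
  rw [g55, g44, g33, k55, k44, k33] at t0
  rw [g53, g42, k53, k42] at t2
  rw [g51, k51] at t4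
  obtain ⟨b00, b50, b40, b32, b20, b31, b11, b22⟩ := five_arith (X.h00.trans Y.h00.symm) h10 e30
    e41 e21 a2 t0 t2 t4 t5 hchi hsec
  have key : ∀ p q : ℤ, q ≤ p → 0 ≤ q → p ≤ 5 → X.h p q = Y.h p q := by
    intro p q h1 h2 h3
    have h4 : 0 ≤ p := h2.trans h1
    interval_cases p <;> interval_cases q
    · exact b00
    · exact h10
    · exact b11
    · exact b20
    · exact e21
    · exact b22
    · exact e30
    · exact b31
    · exact b32
    · rw [g33, k33]; exact b22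
    · exact b40
    · exact e41
    · rw [g42, k42]; exact b31
    · rw [g43, k43]; exact e21
    · rw [g44, k44]; exact b11
    · exact b50
    · rw [g51, k51]; exact b40
    · rw [g52, k52]; exact e30
    · rw [g53, k53]; exact b20
    · rw [g54, k54]; exact h10
    · rw [g55, k55]; exact b00
  rcases le_total q p with h | h
  · exact key p q h (by omega) (by omega)
  · rw [sw X, sw Y]
    exact key q p h (by omega) (by omega)

end Pool.Agent.E8helper34.DI
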