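import Pool.Agent.E8helper34.DI.Pluri

/-!
# The row by row version of the theorem on nef classes of defect at most two

The proofs follow the starting files `Pool.Agent.R929.DH.Low`, `Ineq`, `Main`; the hypotheses are
used only in the rows below `m`.
-/

open scoped ComplexConjugate Topology
open Module

namespace Pool.Agent.E8helper34.DI

open Pool.Agent.W539.DI Pool.Agent.R929.DH

variable {n : ℕ}

/-- The real class `L` of type `(1, 1)` is nef and has defect at most two in the rows below `m`: the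
conditions `inj` and `rel` of the starting structure `DefectTwo` hold for the classes of
type `(p, q)` with `p < m` or `q < m`.

For the pull-back of an ample class under a morphism `f : X → B` this is the case if
`k ≤ c + 2` for every stratum `S` of `B` over which the fibres have dimension `k` and whose preimage has
codimension `c < m`. -/
structure DefectBelow (m : ℤ) (X : KRing n) (L : X.R) : Prop where
  mem : L ∈ X.H (1, 1)
  real : X.bar L = L
  nef : ∀ t : ℝ, 0 < t → IsKahler X (L + (t : ℂ) • X.ω)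
  inj : ∀ (p q : ℤ) (k : ℕ), (p < m ∨ q < m) → p + q + k + 2 = n →
    ∀ x ∈ X.H (p, q), L ^ k * x = 0 → x = 0
  rel : ∀ (p q : ℤ) (k : ℕ), (p < m ∨ q < m) → p + q + k + 2 = n →
    ∀ x ∈ X.H (p, q), x ≠ 0 → L ^ (k + 1) * x = 0 →
    ∃ r : ℝ, 0 < r ∧ Complex.I ^ (p - q) * (-1 : ℂ) ^ ((p + q) * (p + q - 1) / 2) *
      X.tr (L ^ k * (X.ω ^ 2 * (x * X.bar x))) = (r : ℂ)

variable {X Y : KRing n} {Φ : FM X Y} {L : X.R} {L' : Y.R} {m : ℤ}

/-- **Upper bound for the negative index of a nef class.** -/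
theorem nef_bound_row (hnef : ∀ t : ℝ, 0 < t → IsKahler X (L + (t : ℂ) • X.ω)) {r : ℕ} {p q : ℤ} {k : ℕ}
    (hk : p + q + k = n) (hr : p < r) (S : Submodule ℂ X.R) (hSp : S ≤ X.H (p, q))
    (hS : ∀ x ∈ S, x ≠ 0 → sg p q * bf X L k x x < 0) :
    (finrank ℂ S : ℤ) + X.A r p q ≤ X.h p q := by
  obtain ⟨t, ht, h1⟩ := nef_limit L S (sg p q) k hS
  obtain ⟨M, hM, h2, h3⟩ := kahler_pos (hnef t ht) hk hr
  have hd : S ⊓ M = ⊥ := by
    rw [eq_bot_iff]
    rintro x ⟨hx1, hx2⟩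
    rw [Submodule.mem_bot]
    by_contra hx0
    have := h1 x hx1 hx0
    have := h2 x hx2 hx0
    linarith
  have h4 := Submodule.finrank_sup_add_finrank_inf_eq S M
  rw [hd, finrank_bot, add_zero] at h4
  have h5 := Submodule.finrank_mono (sup_le hSp hM)
  rw [← h3]
  unfold KRing.h
  exact_mod_cast (h4 ▸ h5 : finrank ℂ S + finrank ℂ M ≤ finrank ℂ (X.H (p, q)))

theorem neg_dim_row (hL : DefectBelow m X L) : ∀ (r : ℕ) (p q : ℤ) (k : ℕ), p ≤ m →
    p + q + k = n → p < r →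
    ∃ M M' : Submodule ℂ X.R, M ≤ X.H (p, q) ∧ M' ≤ X.H (p, q) ∧
      (∀ x ∈ M, x ≠ 0 → sg p q * bf X L k x x < 0) ∧
      (∀ x ∈ M', 0 ≤ sg p q * bf X L k x x) ∧
      finrank ℂ M + finrank ℂ M' = X.h p q ∧ (finrank ℂ M' : ℤ) = X.A r p q ∧
      (∀ x ∈ X.H (p, q), (∀ y ∈ X.H (p, q), sg p q * bf X L k x y = 0) → x ∈ M') := by
  intro r
  induction r with
  | zero =>
    intro p q k _ _ hp
    have hb : X.H (p, q) = ⊥ := X.van p q (Or.inl (by simpa using hp))
    refine ⟨⊥, ⊥, bot_le, bot_le, ?_, ?_, ?_, ?_, ?_⟩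
    · intro x hx h0
      exact absurd ((Submodule.mem_bot ℂ).mp hx) h0
    · intro x hx
      rw [(Submodule.mem_bot ℂ).mp hx]
      exact le_of_eq ((isHerm (X := X) (w := L) (k := k) (sg p q)).zero_left 0).symm
    · unfold KRing.h
      rw [hb]
      simp
    · simp [KRing.A]
    · intro x hx _
      rw [hb] at hx
      exact hx
  | succ r ih =>
    intro p q k hpm hk hp
    have hH := isHerm (X := X) (w := L) (k := k) (sg p q)
    obtain ⟨M, M', hM, hM', neg, pos, hsum, hrad⟩ := exists_max_sub hH (X.H (p, q))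
    obtain ⟨N, N', hN, hN', negN, posN, hsumN, hAN, hradN⟩ :=
      ih (p - 1) (q - 1) (k + 2) (by omega) (by push_cast; omega) (by push_cast at hp; omega)
    have hk2 : (p - 1 : ℤ) + (q - 1) + (k : ℤ) + 2 = n := by omega
    -- the classes killed by `L ^ (k + 1)`
    let P : Submodule ℂ X.R := X.H (p - 1, q - 1) ⊓ LinearMap.ker (ml X (L ^ (k + 1)))
    have hP : ∀ v ∈ P, v ∈ X.H (p - 1, q - 1) ∧ L ^ (k + 1) * v = 0 := fun v hv => ⟨hv.1, hv.2⟩
    have hPdual : ∀ v ∈ P, L ^ (k + 1) * X.dual v = 0 := by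
      intro v hv
      rw [X.dual_of (hP v hv).1, mul_smul_comm, (hP v hv).2, smul_zero]
    have hPbar : ∀ v ∈ P, L ^ (k + 1) * X.bar v = 0 := by
      intro v hv
      rw [← bar_pow hL.real, (hP v hv).2, map_zero]
    have hPN : P ≤ N' := by
      intro v hv
      refine hradN v (hP v hv).1 fun y _ => ?_
      have h1 : hf X L (k + 2) v y = 0 := by
        unfold hf
        rw [show k + 2 = (k + 1) + 1 from rfl, pow_succ, mul_assoc, ← mul_assoc (X.dual v),
          ← pow_central hL.mem, hPdual v hv, zero_mul, map_zero]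
      have h2 : hf X L (k + 2) y v = 0 := by
        unfold hf
        rw [show k + 2 = (k + 1) + 1 from rfl, pow_succ', mul_assoc, hPbar v hv, mul_zero,
          mul_zero, map_zero]
      unfold bf
      rw [h1, h2]
      simp
    obtain ⟨C, hC⟩ := Submodule.exists_isCompl P
    let W : Submodule ℂ X.R := N' ⊓ C
    have hPW : P ⊔ W = N' := by
      have : P ⊔ C ⊓ N' = (P ⊔ C) ⊓ N' := (sup_inf_assoc_of_le C hPN).symm
      show P ⊔ N' ⊓ C = N'
      rw [inf_comm, this, hC.sup_eq_top, top_inf_eq]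
    have hPWd : P ⊓ W = ⊥ := by
      rw [eq_bot_iff]
      rintro x ⟨hx1, -, hx2⟩
      have : x ∈ P ⊓ C := ⟨hx1, hx2⟩
      rwa [hC.inf_eq_bot] at this
    have hdim : finrank ℂ P + finrank ℂ W = finrank ℂ N' := by
      have h1 := Submodule.finrank_sup_add_finrank_inf_eq P W
      rw [hPW, hPWd, finrank_bot, add_zero] at h1
      exact h1.symm
    -- mixed terms
    have hmix1 : ∀ w : X.R, ∀ v ∈ P, hf X L k (L * w) (X.ω * v) = 0 := by
      intro w v hv
      rw [hf_succ_left hL.mem, hf_mul_right X.ω_mem X.ω_bar, hPbar v hv, mul_zero, mul_zero,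
        map_zero, neg_zero]
    have hmix2 : ∀ w : X.R, ∀ v ∈ P, hf X L k (X.ω * v) (L * w) = 0 := by
      intro w v hv
      rw [hf_succ_right hL.mem hL.real, hf_mul_left X.ω_mem, ← mul_assoc X.ω,
        X.central X.ω_mem (L ^ (k + 1)), mul_assoc, ← mul_assoc (X.dual v),
        ← pow_central hL.mem, hPdual v hv, zero_mul, map_zero, neg_zero]
    have hmix : ∀ w : X.R, ∀ v ∈ P, sg p q * bf X L k (L * w) (X.ω * v) = 0 := by
      intro w v hv
      unfold bf
      rw [hmix1 w v hv, hmix2 w v hv]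
      simp
    have hωneg : ∀ v ∈ P, v ≠ 0 → sg p q * bf X L k (X.ω * v) (X.ω * v) < 0 := by
      intro v hv hv0
      obtain ⟨ρ, hρ, he⟩ := hL.rel (p - 1) (q - 1) k (Or.inl (by omega)) hk2 v (hP v hv).1 hv0 (hP v hv).2
      have h1 : (sg p q : ℂ) * hf X L k (X.ω * v) (X.ω * v) = -(ρ : ℂ) := by
        rw [← he, ← sg_I, sg_pred, hf_mul_left X.ω_mem, X.bar_mul, X.ω_bar,
          X.dual_of (hP v hv).1, smul_mul_assoc, map_smul, smul_eq_mul]
        have e1 : v * (X.ω * (L ^ k * (X.ω * X.bar v))) = L ^ k * (X.ω ^ 2 * (v * X.bar v)) := by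
          rw [← mul_assoc X.ω (L ^ k), X.central X.ω_mem (L ^ k), mul_assoc (L ^ k),
            ← mul_assoc v, ← pow_central hL.mem, mul_assoc (L ^ k), ← mul_assoc X.ω X.ω,
            ← mul_assoc v, ← pow_two, ← pow_central X.ω_mem, mul_assoc]
        rw [e1]
        ring
      have h2 := congrArg Complex.re h1
      rw [Complex.re_ofReal_mul, Complex.neg_re, Complex.ofReal_re] at h2
      rw [bf_self]
      linarith
    have hLneg : ∀ w ∈ W, sg p q * bf X L k (L * w) (L * w) ≤ 0 := by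
      intro w hw
      have h1 := posN w hw.1
      rw [sg_pred] at h1
      rw [bf_succ hL.mem hL.real]
      linarith
    have hLmem : ∀ w ∈ X.H (p - 1, q - 1), L * w ∈ X.H (p, q) := by
      intro w hw
      have := X.mul_mem hL.mem hw
      have e : ((1 + (p - 1), 1 + (q - 1)) : ℤ × ℤ) = (p, q) := by ext <;> simp
      rwa [e] at this
    have hωmem : ∀ w ∈ X.H (p - 1, q - 1), X.ω * w ∈ X.H (p, q) := by
      intro w hw
      have := X.mul_mem X.ω_mem hw
      have e : ((1 + (p - 1), 1 + (q - 1)) : ℤ × ℤ) = (p, q) := by ext <;> simp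
      rwa [e] at this
    have key : ∀ w ∈ W, ∀ v ∈ P, (∀ y ∈ X.H (p, q), sg p q * bf X L k (L * w + X.ω * v) y = 0) →
        w = 0 ∧ v = 0 := by
      intro w hw v hv h
      have hv0 : v = 0 := by
        by_contra hv0
        have h1 := h _ (hωmem v (hP v hv).1)
        have h2 := hH.add (L * w) (X.ω * v) (X.ω * v)
        rw [h2, hmix w v hv, zero_add] at h1
        have h3 := hωneg v hv hv0
        linarith
      refine ⟨?_, hv0⟩
      rw [hv0, mul_zero, add_zero] at h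
      have h1 : L ^ k * (L * w) = 0 := by
        refine pow_mul_eq_zero hL.mem hL.real hk (hLmem w (hN' hw.1)) fun y hy => ?_
        exact (mul_eq_zero.mp (h y hy)).resolve_left (sg_ne p q)
      rw [← mul_assoc, ← pow_succ] at h1
      have h2 : w ∈ P ⊓ W := ⟨⟨hN' hw.1, h1⟩, hw⟩
      rw [hPWd, Submodule.mem_bot] at h2
      exact h2
    let S₁ : Submodule ℂ X.R := Submodule.map (ml X L) W
    let S₂ : Submodule ℂ X.R := Submodule.map (ml X X.ω) P
    have hzero : ∀ y : X.R, sg p q * bf X L k 0 y = 0 := fun y => hH.zero_left y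
    have hd1 : finrank ℂ S₁ = finrank ℂ W := by
      refine finrank_map_of_inj _ _ fun w hw h0 => (key w hw 0 P.zero_mem fun y _ => ?_).1
      have : L * w = 0 := h0
      rw [this, mul_zero, add_zero]
      exact hzero y
    have hd2 : finrank ℂ S₂ = finrank ℂ P := by
      refine finrank_map_of_inj _ _ fun v hv h0 => (key 0 W.zero_mem v hv fun y _ => ?_).2
      have : X.ω * v = 0 := h0
      rw [this, mul_zero, add_zero]
      exact hzero y
    have hd3 : S₁ ⊓ S₂ = ⊥ := by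
      rw [eq_bot_iff]
      rintro _ ⟨⟨w, hw, rfl⟩, ⟨v, hv, hvw⟩⟩
      have hvw' : X.ω * v = L * w := hvw
      have h1 := (key w hw (-v) (P.neg_mem hv) fun y _ => by
        rw [mul_neg, hvw', add_neg_cancel]
        exact hzero y).1
      rw [Submodule.mem_bot]
      show L * w = 0
      rw [h1, mul_zero]
    have hdS : finrank ℂ (S₁ ⊔ S₂ : Submodule ℂ X.R) = finrank ℂ N' := by
      have h1 := Submodule.finrank_sup_add_finrank_inf_eq S₁ S₂
      rw [hd3, finrank_bot, add_zero, hd1, hd2] at h1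
      omega
    have hS : ∀ x ∈ S₁ ⊔ S₂, ∃ w ∈ W, ∃ v ∈ P, x = L * w + X.ω * v := by
      intro x hx
      rw [Submodule.mem_sup] at hx
      obtain ⟨_, ⟨w, hw, rfl⟩, _, ⟨v, hv, rfl⟩, rfl⟩ := hx
      exact ⟨w, hw, v, hv, rfl⟩
    have hfin := semi_sub hH (X.H (p, q)) M' (S₁ ⊔ S₂) ⊥ hM'
      (by
        intro x hx
        obtain ⟨w, hw, v, hv, rfl⟩ := hS x hx
        exact Submodule.add_mem _ (hLmem w (hN' hw.1)) (hωmem v (hP v hv).1))
      pos
      (by
        intro x hx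
        obtain ⟨w, hw, v, hv, rfl⟩ := hS x hx
        have h1 := hH.add (L * w) (X.ω * v) (L * w + X.ω * v)
        have h2 := hH.add_right (L * w) (L * w) (X.ω * v)
        have h3 := hH.add_right (X.ω * v) (L * w) (X.ω * v)
        have h4 := hH.symm (X.ω * v) (L * w)
        rw [h1, h2, h3, h4, hmix w v hv]
        have h5 := hLneg w hw
        have h6 : sg p q * bf X L k (X.ω * v) (X.ω * v) ≤ 0 := by
          by_cases hv0 : v = 0
          · rw [hv0, mul_zero, hzero]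
          · exact (hωneg v hv hv0).le
        linarith)
      (by
        intro x hx hxy
        obtain ⟨w, hw, v, hv, rfl⟩ := hS x hx
        obtain ⟨h1, h2⟩ := key w hw v hv hxy
        rw [h1, h2, mul_zero, mul_zero, add_zero]
        exact Submodule.zero_mem _)
    rw [hdS, finrank_bot, add_zero] at hfin
    have hup := nef_bound_row hL.nef hk hp M hM neg
    refine ⟨M, M', hM, hM', neg, pos, hsum, ?_, hrad⟩
    have hA : X.A (r + 1) p q = X.h p q - X.A r (p - 1) (q - 1) := rfl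
    have hsum' : finrank ℂ M + finrank ℂ M' = X.h p q := hsum
    have hfin' : finrank ℂ M' + finrank ℂ N' ≤ X.h p q := hfin
    rw [hA] at hup ⊢
    rw [← hAN] at hup ⊢
    omega

/-- The vectors in the upper part which are orthogonal to the lower part. -/
theorem exists_ker_row (hL : DefectBelow m X L) {a b : ℤ} {κ : ℕ} (ham : a ≤ m)
    (hab : a + b + κ = n) (N : ℕ) :
    ∃ K : Submodule ℂ X.R, finrank ℂ K + hs X a b (sm N) = hs X a b (sp N) ∧
      ∀ x ∈ X.F a b (sp N), (∀ y ∈ X.F a b (sm N), hf X L κ x y = 0) → x ∈ K := by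
  let V := X.F a b (sp N)
  let Z := X.F b a (sm N)
  let Θ : Z →ₗ[ℂ] Module.Dual ℂ V :=
    LinearMap.mk₂ ℂ (fun (z : Z) (x : V) => X.tr (X.dual (x : X.R) * (L ^ κ * (z : X.R))))
      (fun z z' x => by
        simp only [Submodule.coe_add, mul_add, map_add])
      (fun c z x => by
        simp only [Submodule.coe_smul, mul_smul_comm, map_smul])
      (fun z x x' => by
        simp only [Submodule.coe_add, add_mul, map_add])
      (fun c z x => by
        simp only [Submodule.coe_smul, smul_mul_assoc, map_smul])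
  have hΘ : ∀ z x, Θ z x = X.tr (X.dual (x : X.R) * (L ^ κ * (z : X.R))) := fun z x => rfl
  have hinj : Function.Injective Θ := by
    rw [injective_iff_map_eq_zero]
    intro z hz
    have hz' : ∀ x ∈ V, X.tr (X.dual x * (L ^ κ * (z : X.R))) = 0 := by
      intro x hx
      have := congrArg (fun f => f ⟨x, hx⟩) hz
      exact this
    have hzZ : (z : X.R) ∈ ⨆ k ∈ sm N, X.H (b + k, a + k) := z.2
    rw [Submodule.mem_iSup_finset_iff_exists_sum] at hzZ
    obtain ⟨μ, hμ⟩ := hzZ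
    have hall : ∀ k0 ∈ sm N, ((μ k0 : X.H (b + k0, a + k0)) : X.R) = 0 := by
      intro k0 hk0
      have hneg : -k0 ∈ sp N := by
        rw [mem_sm] at hk0
        rw [mem_sp]
        omega
      have hk0' := mem_sm.1 hk0
      have h1 : ∀ x ∈ X.H (a - k0, b - k0),
          X.tr (X.dual x * (L ^ κ * (μ k0 : X.R))) = 0 := by
        intro x hx
        have hxV : x ∈ V := by
          refine X.mem_F hneg ?_
          simpa [sub_eq_add_neg] using hx
        have h2 := hz' x hxV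
        rw [← hμ, Finset.mul_sum, Finset.mul_sum, map_sum, Finset.sum_eq_single k0] at h2
        · exact h2
        · intro k hk hne
          rw [X.dual_of hx, smul_mul_assoc, map_smul]
          have h3 := X.mul_mem hx (X.pow_mul_mem hL.mem κ (μ k).2)
          rw [X.tr_van _ _ _ h3 (fun h => hne (by omega)), smul_zero]
        · intro h
          exact absurd hk0 h
      have hmem := X.pow_mul_mem hL.mem κ (μ k0).2
      have h2 : L ^ κ * (μ k0 : X.R) = 0 := by
        refine X.pd _ _ _ hmem fun y hy => ?_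
        have e : ((n - (b + k0 + κ), n - (a + k0 + κ)) : ℤ × ℤ) = (a - k0, b - k0) := by
          ext <;> simp <;> omega
        rw [e] at hy
        have h3 := h1 y hy
        rw [X.dual_of hy, smul_mul_assoc, map_smul, smul_eq_mul] at h3
        have h4 := (mul_eq_zero.mp h3).resolve_left (zpow_ne_zero _ Complex.I_ne_zero)
        rw [X.comm _ _ _ _ _ _ hmem hy, map_smul, h4, smul_zero]
      obtain ⟨j, hj⟩ := Int.eq_ofNat_of_zero_le (show 0 ≤ -2 * k0 - 2 by omega)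
      refine hL.inj (b + k0) (a + k0) (j + κ) (Or.inr (by omega)) (by push_cast; omega) _ (μ k0).2 ?_
      rw [pow_add, mul_assoc, h2, mul_zero]
    have hz0 : (z : X.R) = 0 := by
      rw [← hμ]
      exact Finset.sum_eq_zero hall
    exact Subtype.ext hz0
  have h1 := Subspace.finrank_add_finrank_dualCoannihilator_eq (LinearMap.range Θ)
  rw [LinearMap.finrank_range_of_inj hinj] at h1
  refine ⟨(LinearMap.range Θ).dualCoannihilator.map V.subtype, ?_, ?_⟩
  · rw [Submodule.finrank_map_subtype_eq]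
    have h2 : finrank ℂ Z = hs X a b (sm N) := by
      show finrank ℂ (X.F b a (sm N)) = _
      rw [X.finrank_F]
      unfold hs
      refine Finset.sum_congr rfl fun k _ => ?_
      rw [X.h_swap]
    have h3 : finrank ℂ V = hs X a b (sp N) := X.finrank_F a b (sp N)
    rw [h2, h3] at h1
    omega
  · intro x hx h
    refine ⟨⟨x, hx⟩, ?_, rfl⟩
    rw [SetLike.mem_coe, Submodule.mem_dualCoannihilator]
    rintro _ ⟨z, rfl⟩
    rw [hΘ]
    have h2 := h (X.bar z) (bar_F z.2)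
    unfold hf at h2
    rw [X.bar_bar] at h2
    exact h2

/-- **The basic inequality.** -/
theorem basic_row (hX : DefectBelow m X L) (hY : DefectBelow m Y L') (hc : Intertwines Φ X.c Y.c)
    (hΦ : Intertwines Φ L L') {a b : ℤ} {κ : ℕ} (ham : a ≤ m)
    (hab : a + b + κ = n) (ha : 0 ≤ a) (hb : 0 ≤ b)
    {r : ℕ} (hr : a < r) :
    (hs X a b (sp n) : ℤ) + X.A r a b ≤ hs Y a b (sp n) + Y.A r a b := by
  classical
  obtain ⟨-, M', -, hM', -, pos, -, hA, -⟩ := neg_dim_row hX r a b κ ham hab hr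
  obtain ⟨N, N', hN, hN', neg, -, hsum, hA', -⟩ := neg_dim_row hY r a b κ ham hab hr
  obtain ⟨K, hK, hK2⟩ := exists_ker_row hY ham hab n
  have hH := isHerm (X := Y) (w := L') (k := κ) (sg a b)
  have hI := hH.inv
  have h1 := semi_sub hH (⨆ k : ℤ, Y.H (a + k, b + k))
    (Submodule.map (Φ.φ : X.R →ₗ[ℂ] Y.R) (X.F a b (sp n) ⊔ M')) (Y.F a b (sp n) ⊔ N) K
    (by
      rw [← Φ.hodge a b]
      exact Submodule.map_mono (sup_le (F_le a b _) (hM'.trans (H_le a b))))
    (sup_le (F_le a b _) (hN.trans (H_le a b)))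
    (by
      rintro _ ⟨x, hx, rfl⟩
      obtain ⟨f, hf1, m, hm, rfl⟩ := Submodule.mem_sup.1 hx
      show 0 ≤ sg a b * bf Y L' κ (Φ.φ (f + m)) (Φ.φ (f + m))
      rw [bf_iso hc hΦ, (bf_sup hX.mem hab n hf1 (hM' hm)).1]
      exact pos m hm)
    (by
      intro x hx
      obtain ⟨f, hf1, m, hm, rfl⟩ := Submodule.mem_sup.1 hx
      rw [(bf_sup hY.mem hab n hf1 (hN hm)).1]
      by_cases hm0 : m = 0
      · rw [hm0]
        exact le_of_eq (hH.zero_left 0)
      · exact (neg m hm hm0).le)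
    (by
      intro x hx hxy
      obtain ⟨f, hf1, m, hm, rfl⟩ := Submodule.mem_sup.1 hx
      have hm0 : m = 0 := by
        by_contra hm0
        have h2 := hxy m (H_le a b (hN hm))
        rw [(bf_sup hY.mem hab n hf1 (hN hm)).2.1] at h2
        have h3 := neg m hm hm0
        linarith
      rw [hm0, add_zero]
      have h4 : ∀ y ∈ Y.F a b (sm n), (hf Y L' κ f y).re = 0 := by
        intro y hy
        have h2 := hxy y (F_le a b _ hy)
        rw [(bf_sup hY.mem hab n hf1 (hN hm)).2.2 y hy] at h2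
        have h3 := (mul_eq_zero.mp h2).resolve_left (sg_ne a b)
        unfold bf at h3
        rw [hf_F_conj hY.mem hY.real hab _ _ hf1 hy, Complex.conj_re] at h3
        linarith
      refine hK2 f hf1 fun y hy => ?_
      have h5 := h4 (Complex.I • y) (Submodule.smul_mem _ _ hy)
      rw [hf_smul_right, Complex.conj_I] at h5
      refine Complex.ext (h4 y hy) ?_
      simp only [Complex.mul_re, Complex.neg_re, Complex.I_re, Complex.neg_im, Complex.I_im] at h5
      simp only [Complex.zero_im]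
      linarith)
  have hT : finrank ℂ (⨆ k : ℤ, Y.H (a + k, b + k) : Submodule ℂ Y.R) =
      hs Y a b (sm n) + (Y.h a b + hs Y a b (sp n)) := by
    rw [Y.total_all a b (sm n ∪ ({0} ∪ sp n)) ?_, Finset.sum_union, Finset.sum_union,
      Finset.sum_singleton, add_zero, add_zero]
    · rfl
    · rw [Finset.disjoint_left]
      intro k hk hk2
      rw [Finset.mem_singleton] at hk
      rw [mem_sp] at hk2
      omega
    · rw [Finset.disjoint_left]
      intro k hk hk2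
      rw [mem_sm] at hk
      rw [Finset.mem_union, Finset.mem_singleton, mem_sp] at hk2
      omega
    · intro k hk
      rw [Finset.mem_union, Finset.mem_union, Finset.mem_singleton, mem_sp, mem_sm] at hk
      omega
  rw [LinearEquiv.finrank_map_eq, finrank_sup' hM', finrank_sup' hN, hT] at h1
  rw [← hA, ← hA']
  omega

theorem basic_eq_row (hX : DefectBelow m X L) (hY : DefectBelow m Y L') (hc : Intertwines Φ X.c Y.c)
    (hΦ : Intertwines Φ L L') {a b : ℤ} {κ : ℕ} (ham : a ≤ m)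
    (hab : a + b + κ = n) (ha : 0 ≤ a) (hb : 0 ≤ b)
    {r : ℕ} (hr : a < r) :
    (hs X a b (sp n) : ℤ) + X.A r a b = hs Y a b (sp n) + Y.A r a b :=
  le_antisymm (basic_row hX hY hc hΦ ham hab ha hb hr)
    (basic_row (Φ := symm Φ) hY hX hc.symm hΦ.symm ham hab ha hb hr)

theorem lower_row (hX : DefectBelow m X L) (hY : DefectBelow m Y L') (hc : Intertwines Φ X.c Y.c)
    (hΦ : Intertwines Φ L L') : ∀ (N : ℕ) (p q : ℤ), p < m → p < N → p + q + 2 ≤ n →
    X.h p q = Y.h p q := by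
  intro N
  induction N with
  | zero =>
    intro p q _ hp _
    rw [X.h_neg (Or.inl (by simpa using hp)), Y.h_neg (Or.inl (by simpa using hp))]
  | succ N ih =>
    intro p q hpm hp hpq
    by_cases hneg : p < 0 ∨ q < 0
    · rw [X.h_neg hneg, Y.h_neg hneg]
    · push Not at hneg
      obtain ⟨hp0, hq0⟩ := hneg
      obtain ⟨κ, hκ⟩ := Int.eq_ofNat_of_zero_le (show 0 ≤ (n : ℤ) - p - q - 2 by omega)
      have hab : (p + 1) + (q + 1) + (κ : ℤ) = n := by omega
      have h1 := basic_eq_row hX hY hc hΦ (by omega) hab (by omega) (by omega) (r := N + 3)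
        (by push_cast at hp ⊢; omega)
      have h2 := total_eq Φ hab (by omega) (by omega)
      have hlow : ∀ i : ℕ, X.h (p - 1 - i) (q - 1 - i) = Y.h (p - 1 - i) (q - 1 - i) := fun i =>
        ih _ _ (by omega) (by push_cast at hp; omega) (by omega)
      have hA : ∀ Z : KRing n, Z.A (N + 3) (p + 1) (q + 1) =
          Z.h (p + 1) (q + 1) - (Z.h p q - Z.A (N + 1) (p - 1) (q - 1)) := by
        intro Z
        show (Z.h (p + 1) (q + 1) : ℤ) - ((Z.h (p + 1 - 1) (q + 1 - 1) : ℤ) -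
          Z.A (N + 1) (p + 1 - 1 - 1) (q + 1 - 1 - 1)) = _
        rw [add_sub_cancel_right, add_sub_cancel_right]
      have hA2 : X.A (N + 1) (p - 1) (q - 1) = Y.A (N + 1) (p - 1) (q - 1) :=
        A_congr _ _ _ hlow
      obtain ⟨n', hn'⟩ : ∃ n', n = n' + 1 := ⟨n - 1, by omega⟩
      have hsm : ∀ Z : KRing n, hs Z (p + 1) (q + 1) (sm n) =
          ∑ j ∈ Finset.range n', Z.h (p - 1 - j) (q - 1 - j) + Z.h p q := by
        intro Z
        rw [hs_sm, show Finset.range n = Finset.range (n' + 1) by rw [hn'],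
          Finset.sum_range_succ']
        congr 1
        · refine Finset.sum_congr rfl fun j _ => ?_
          congr 1 <;> push_cast <;> ring
        · congr 1 <;> push_cast <;> ring
      have hsum : ∑ j ∈ Finset.range n', X.h (p - 1 - j) (q - 1 - j) =
          ∑ j ∈ Finset.range n', Y.h (p - 1 - j) (q - 1 - j) :=
        Finset.sum_congr rfl fun j _ => hlow j
      rw [hA X, hA Y, hA2] at h1
      rw [hsm X, hsm Y, hsum] at h2
      omega

/-- **The rows below `m`.** -/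
theorem main_row (hX : DefectBelow m X L) (hY : DefectBelow m Y L') (hc : Intertwines Φ X.c Y.c)
    (hΦ : Intertwines Φ L L') (p q : ℤ) (hm : p < m ∨ q < m) :
    X.h p q = Y.h p q := by
  have hlow : ∀ p q : ℤ, p < m → p + q + 2 ≤ n → X.h p q = Y.h p q := fun p q hpm h =>
    lower_row hX hY hc hΦ (p.toNat + 1) p q hpm (by
      push_cast
      have := Int.self_le_toNat p
      omega) h
  have hmid : ∀ p q : ℤ, p < m → p + q ≤ n → X.h p q = Y.h p q := by
    intro p q hpm hpq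
    by_cases h2 : p + q + 2 ≤ n
    · exact hlow p q hpm h2
    by_cases hneg : p < 0 ∨ q < 0
    · rw [X.h_neg hneg, Y.h_neg hneg]
    push Not at hneg
    obtain ⟨hp0, hq0⟩ := hneg
    have hAll : ∀ i : ℕ, X.h (p - 1 - i) (q - 1 - i) = Y.h (p - 1 - i) (q - 1 - i) := fun i =>
      hlow _ _ (by omega) (by omega)
    have hA : ∀ Z : KRing n, Z.A (p.toNat + 2) p q =
        Z.h p q - Z.A (p.toNat + 1) (p - 1) (q - 1) := fun Z => rfl
    have hA2 : X.A (p.toNat + 1) (p - 1) (q - 1) = Y.A (p.toNat + 1) (p - 1) (q - 1) :=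
      A_congr _ _ _ hAll
    have hr : p < ((p.toNat + 2 : ℕ) : ℤ) := by
      push_cast
      have := Int.self_le_toNat p
      omega
    by_cases h0 : p + q = n
    · have h1 := basic_eq_row hX hY hc hΦ (m := m) (by omega) (κ := 0) (a := p) (b := q) (by simpa using h0) hp0 hq0 hr
      have hsp : ∀ Z : KRing n, hs Z p q (sp n) =
          ∑ j ∈ Finset.range n, Z.h (p - 1 - j) (q - 1 - j) := by
        intro Z
        rw [hs_sp]
        refine Finset.sum_congr rfl fun j _ => ?_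
        have := Z.h_symm (p := p - 1 - j) (q := q - 1 - j) (2 * (j + 1)) (by push_cast; omega)
        rw [this]
        congr 1 <;> push_cast <;> ring
      rw [hsp X, hsp Y, hA X, hA Y, hA2, Finset.sum_congr rfl fun j _ => hAll j] at h1
      omega
    · have h1' : p + q + 1 = n := by omega
      have h1 := basic_eq_row hX hY hc hΦ (m := m) (by omega) (κ := 1) (a := p) (b := q) (by push_cast; omega) hp0 hq0 hr
      obtain ⟨n', hn'⟩ : ∃ n', n = n' + 1 := ⟨n - 1, by omega⟩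
      have hsp : ∀ Z : KRing n, hs Z p q (sp n) =
          ∑ j ∈ Finset.range n', Z.h (p - 1 - j) (q - 1 - j) + Z.h p q := by
        intro Z
        rw [hs_sp, show Finset.range n = Finset.range (n' + 1) by rw [hn'],
          Finset.sum_range_succ']
        congr 1
        · refine Finset.sum_congr rfl fun j _ => ?_
          have := Z.h_symm (p := p - 1 - j) (q := q - 1 - j) (2 * j + 3) (by push_cast; omega)
          rw [this]
          congr 1 <;> push_cast <;> ring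
        · have := Z.h_symm (p := p) (q := q) 1 (by push_cast; omega)
          rw [this]
          congr 1 <;> push_cast <;> ring
      rw [hsp X, hsp Y, hA X, hA Y, hA2, Finset.sum_congr rfl fun j _ => hAll j] at h1
      omega
  have hmid2 : ∀ p q : ℤ, (p < m ∨ q < m) → p + q ≤ n → X.h p q = Y.h p q := by
    intro p q hm hpq
    rcases hm with h | h
    · exact hmid p q h hpq
    · rw [X.h_swap, Y.h_swap]
      exact hmid q p h (by omega)
  by_cases h : p + q ≤ n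
  · exact hmid2 p q hm h
  · by_cases hout : (n : ℤ) < p ∨ (n : ℤ) < q
    · rw [X.h_zero (by omega), Y.h_zero (by omega)]
    obtain ⟨j, hj⟩ := Int.eq_ofNat_of_zero_le (show 0 ≤ p + q - n by omega)
    have h1 : ∀ Z : KRing n, Z.h p q = Z.h (n - q) (n - p) := by
      intro Z
      have := Z.h_symm (p := n - q) (q := n - p) j (by omega)
      rw [this]
      congr 1 <;> omega
    rw [h1 X, h1 Y]
    refine hmid2 _ _ ?_ (by omega)
    push Not at hout
    rcases hm with h2 | h2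
    · left; omega
    · right; omega

theorem six_arith {a00 a10 a20 a11 a21 a31 a22 a32 a42 a33 : ℕ}
    {b00 b10 b20 b11 b21 b31 b22 b32 b42 b33 : ℕ} (h00 : a00 = b00)
    (h10 : a10 = b10) (h20 : a20 = b20) (h11 : a11 = b11) (h21 : a21 = b21) (h31 : a31 = b31)
    (i22 : a22 + a00 = b22 + b00)
    (t0 : a00 + (a11 + (a22 + (a33 + (a22 + (a11 + a00))))) =
      b00 + (b11 + (b22 + (b33 + (b22 + (b11 + b00))))))
    (t1 : a10 + (a21 + (a32 + (a32 + (a21 + a10)))) =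
      b10 + (b21 + (b32 + (b32 + (b21 + b10)))))
    (t2 : a20 + (a31 + (a42 + (a31 + a20))) = b20 + (b31 + (b42 + (b31 + b20)))) :
    a22 = b22 ∧ a32 = b32 ∧ a42 = b42 ∧ a33 = b33 := by
  omega

/-- **Sixfolds**: the rows `0` and `1` determine all Hodge numbers. -/
theorem six_all {X Y : KRing 6} (Φ : FM X Y)
    (hr : ∀ p q : ℤ, (p < 2 ∨ q < 2) → X.h p q = Y.h p q) (p q : ℤ) : X.h p q = Y.h p q := by
  by_cases hout : p < 0 ∨ q < 0 ∨ ((6 : ℕ) : ℤ) < p ∨ ((6 : ℕ) : ℤ) < q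
  · rw [X.h_zero hout, Y.h_zero hout]
  push_cast at hout
  by_cases hrow : p < 2 ∨ q < 2
  · exact hr p q hrow
  by_cases hrow2 : 4 < p ∨ 4 < q
  · obtain ⟨j, hj⟩ := Int.eq_ofNat_of_zero_le (show 0 ≤ p + q - 6 by omega)
    have h1 : ∀ Z : KRing 6, Z.h p q = Z.h (6 - q) (6 - p) := by
      intro Z
      have := Z.h_symm (p := 6 - q) (q := 6 - p) j (by push_cast; omega)
      rw [this]
      congr 1 <;> omega
    rw [h1 X, h1 Y]
    exact hr _ _ (by omega)
  obtain ⟨a1, -⟩ := Φ.hodge_sums 3 3 rfl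
  have hs33 : ∀ Z : KRing 6, ∑ i ∈ Finset.range 6, Z.h (((3 : ℕ) : ℤ) - 1 - 2 * i)
      (((3 : ℕ) : ℤ) - 1 - 2 * i) = Z.h 2 2 + Z.h 0 0 := by
    intro Z
    rw [Finset.sum_range_succ', Finset.sum_range_succ', Finset.sum_eq_zero]
    · norm_num
      ring
    · intro i _
      refine Z.h_neg (Or.inl ?_)
      push_cast
      omega
  rw [hs33, hs33] at a1
  have t0 := Φ.total_all 0 0 {0, 1, 2, 3, 4, 5, 6} (by
    intro k hk
    simp only [Finset.mem_insert, Finset.mem_singleton] at hk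
    push_cast
    omega)
  have t1 := Φ.total_all 1 0 {0, 1, 2, 3, 4, 5} (by
    intro k hk
    simp only [Finset.mem_insert, Finset.mem_singleton] at hk
    push_cast
    omega)
  have t2 := Φ.total_all 2 0 {0, 1, 2, 3, 4} (by
    intro k hk
    simp only [Finset.mem_insert, Finset.mem_singleton] at hk
    push_cast
    omega)
  simp only [Finset.sum_insert (show (0 : ℤ) ∉ ({1, 2, 3, 4, 5, 6} : Finset ℤ) by decide),
    Finset.sum_insert (show (1 : ℤ) ∉ ({2, 3, 4, 5, 6} : Finset ℤ) by decide),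
    Finset.sum_insert (show (2 : ℤ) ∉ ({3, 4, 5, 6} : Finset ℤ) by decide),
    Finset.sum_insert (show (3 : ℤ) ∉ ({4, 5, 6} : Finset ℤ) by decide),
    Finset.sum_insert (show (4 : ℤ) ∉ ({5, 6} : Finset ℤ) by decide),
    Finset.sum_insert (show (5 : ℤ) ∉ ({6} : Finset ℤ) by decide), Finset.sum_singleton] at t0
  simp only [Finset.sum_insert (show (0 : ℤ) ∉ ({1, 2, 3, 4, 5} : Finset ℤ) by decide),
    Finset.sum_insert (show (1 : ℤ) ∉ ({2, 3, 4, 5} : Finset ℤ) by decide),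
    Finset.sum_insert (show (2 : ℤ) ∉ ({3, 4, 5} : Finset ℤ) by decide),
    Finset.sum_insert (show (3 : ℤ) ∉ ({4, 5} : Finset ℤ) by decide),
    Finset.sum_insert (show (4 : ℤ) ∉ ({5} : Finset ℤ) by decide), Finset.sum_singleton] at t1
  simp only [Finset.sum_insert (show (0 : ℤ) ∉ ({1, 2, 3, 4} : Finset ℤ) by decide),
    Finset.sum_insert (show (1 : ℤ) ∉ ({2, 3, 4} : Finset ℤ) by decide),
    Finset.sum_insert (show (2 : ℤ) ∉ ({3, 4} : Finset ℤ) by decide),
    Finset.sum_insert (show (3 : ℤ) ∉ ({4} : Finset ℤ) by decide), Finset.sum_singleton] at t2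
  norm_num at t0 t1 t2
  have s1 : ∀ (Z : KRing 6) (p q : ℤ) (k : ℕ), p + q + k = 6 → Z.h (p + k) (q + k) = Z.h p q :=
    fun Z p q k h => (Z.h_symm k (by push_cast; exact h)).symm
  have g : ∀ Z : KRing 6, Z.h 6 6 = Z.h 0 0 ∧ Z.h 5 5 = Z.h 1 1 ∧ Z.h 4 4 = Z.h 2 2 ∧
      Z.h 6 5 = Z.h 1 0 ∧ Z.h 5 4 = Z.h 2 1 ∧ Z.h 4 3 = Z.h 3 2 ∧ Z.h 6 4 = Z.h 2 0 ∧
      Z.h 5 3 = Z.h 3 1 := by
    intro Z
    have r1 := s1 Z 0 0 6 (by norm_num)
    have r2 := s1 Z 1 1 4 (by norm_num)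
    have r3 := s1 Z 2 2 2 (by norm_num)
    have r4 := s1 Z 1 0 5 (by norm_num)
    have r5 := s1 Z 2 1 3 (by norm_num)
    have r6 := s1 Z 3 2 1 (by norm_num)
    have r7 := s1 Z 2 0 4 (by norm_num)
    have r8 := s1 Z 3 1 2 (by norm_num)
    norm_num at r1 r2 r3 r4 r5 r6 r7 r8
    exact ⟨r1, r2, r3, r4, r5, r6, r7, r8⟩
  obtain ⟨g66, g55, g44, g65, g54, g43, g64, g53⟩ := g X
  obtain ⟨k66, k55, k44, k65, k54, k43, k64, k53⟩ := g Y
  rw [g66, g55, g44, k66, k55, k44] at t0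
  rw [g65, g54, g43, k65, k54, k43] at t1
  rw [g64, g53, k64, k53] at t2
  obtain ⟨b22, b32, b42, b33⟩ := six_arith (X.h00.trans Y.h00.symm) (hr 1 0 (by norm_num))
    (hr 2 0 (by norm_num)) (hr 1 1 (by norm_num)) (hr 2 1 (by norm_num)) (hr 3 1 (by norm_num))
    a1 t0 t1 t2
  have key : ∀ p q : ℤ, q ≤ p → 2 ≤ q → p ≤ 4 → X.h p q = Y.h p q := by
    intro p q h1 h2 h3
    have h4 : 2 ≤ p := h2.trans h1
    interval_cases p <;> interval_cases q
    · exact b22
    · exact b32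
    · exact b33
    · exact b42
    · rw [g43, k43]; exact b32
    · rw [g44, k44]; exact b22
  rcases le_total q p with h | h
  · exact key p q h (by omega) (by omega)
  · rw [X.h_swap, Y.h_swap]
    exact key q p h (by omega) (by omega)

theorem seven_arith {a00 a10 a20 a30 a11 a21 a31 a22 a32 a42 a52 a33 a43 : ℕ}
    {b00 b10 b20 b30 b11 b21 b31 b22 b32 b42 b52 b33 b43 : ℕ} (h00 : a00 = b00)
    (h10 : a10 = b10) (h20 : a20 = b20) (h30 : a30 = b30) (h11 : a11 = b11) (h21 : a21 = b21)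
    (h31 : a31 = b31) (i32 : a32 + a10 = b32 + b10) (i43 : a43 + 2 * a21 = b43 + 2 * b21)
    (i52 : a52 + 2 * a30 = b52 + 2 * b30)
    (t0 : a00 + (a11 + (a22 + (a33 + (a33 + (a22 + (a11 + a00)))))) =
      b00 + (b11 + (b22 + (b33 + (b33 + (b22 + (b11 + b00)))))))
    (t2 : a20 + (a31 + (a42 + (a42 + (a31 + a20)))) =
      b20 + (b31 + (b42 + (b42 + (b31 + b20))))) :
    a32 = b32 ∧ a42 = b42 ∧ a52 = b52 ∧ a43 = b43 ∧ (a33 : ℤ) - b33 = -((a22 : ℤ) - b22) := by
  omega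

/-- The second moment in dimension seven. -/
theorem seven_moment {X Y : KRing 7} (hoff : ∀ p q : ℤ, p ≠ q → X.h p q = Y.h p q)
    (hr : ∀ p q : ℤ, (p < 2 ∨ q < 2) → X.h p q = Y.h p q)
    (h33 : (X.h 3 3 : ℤ) - Y.h 3 3 = -((X.h 2 2 : ℤ) - Y.h 2 2)) :
    secondMoment X - secondMoment Y = 16 * ((X.h 2 2 : ℤ) - Y.h 2 2) := by
  let d : ℕ → ℕ → ℤ := fun p q =>
    if p = q then (if p = 2 ∨ p = 5 then 1 else if p = 3 ∨ p = 4 then -1 else 0) else 0
  have s1 : ∀ (Z : KRing 7) (p q : ℤ) (k : ℕ), p + q + k = 7 → Z.h (p + k) (q + k) = Z.h p q :=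
    fun Z p q k h => (Z.h_symm k (by push_cast; exact h)).symm
  have g : ∀ Z : KRing 7, Z.h 7 7 = Z.h 0 0 ∧ Z.h 6 6 = Z.h 1 1 ∧ Z.h 5 5 = Z.h 2 2 ∧
      Z.h 4 4 = Z.h 3 3 := by
    intro Z
    have r1 := s1 Z 0 0 7 (by norm_num)
    have r2 := s1 Z 1 1 5 (by norm_num)
    have r3 := s1 Z 2 2 3 (by norm_num)
    have r4 := s1 Z 3 3 1 (by norm_num)
    norm_num at r1 r2 r3 r4
    exact ⟨r1, r2, r3, r4⟩
  obtain ⟨g77, g66, g55, g44⟩ := g X
  obtain ⟨k77, k66, k55, k44⟩ := g Y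
  have hd : ∀ p ∈ Finset.range 8, ∀ q ∈ Finset.range 8, (X.h p q : ℤ) - Y.h p q =
      ((X.h 2 2 : ℤ) - Y.h 2 2) * d p q := by
    intro p hp q hq
    rw [Finset.mem_range] at hp hq
    by_cases hpq : p = q
    · subst hpq
      have hd' : d p p = if p = 2 ∨ p = 5 then 1 else if p = 3 ∨ p = 4 then -1 else 0 := if_pos rfl
      rw [hd']
      have r00 := hr 0 0 (by norm_num)
      have r11 := hr 1 1 (by norm_num)
      interval_cases p
      · simp [r00]
      · simp [r11]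
      · norm_num
      · norm_num
        linarith
      · norm_num
        rw [g44, k44]
        linarith
      · norm_num
        rw [g55, k55]
      · norm_num
        rw [g66, k66, r11]
        ring
      · norm_num
        rw [g77, k77, r00]
        ring
    · have h1 : (p : ℤ) ≠ q := by exact_mod_cast hpq
      have hd' : d p q = 0 := if_neg hpq
      rw [hoff p q h1, hd', sub_self, mul_zero]
  unfold secondMoment
  rw [← Finset.sum_sub_distrib]
  have h2 : ∀ p ∈ Finset.range 8, (∑ q ∈ Finset.range 8, (-1) ^ (p + q) * ((2 * (p : ℤ) - (7 : ℕ)) ^ 2 *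
      (X.h p q : ℤ)) - ∑ q ∈ Finset.range 8, (-1) ^ (p + q) * ((2 * (p : ℤ) - (7 : ℕ)) ^ 2 *
      (Y.h p q : ℤ))) = ((X.h 2 2 : ℤ) - Y.h 2 2) * ∑ q ∈ Finset.range 8,
        (-1) ^ (p + q) * ((2 * (p : ℤ) - (7 : ℕ)) ^ 2 * d p q) := by
    intro p hp
    rw [← Finset.sum_sub_distrib, Finset.mul_sum]
    refine Finset.sum_congr rfl fun q hq => ?_
    have h3 := hd p hp q hq
    linear_combination (-1) ^ (p + q) * (2 * (p : ℤ) - (7 : ℕ)) ^ 2 * h3
  show ∑ p ∈ Finset.range 8, _ = _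
  rw [Finset.sum_congr rfl h2, ← Finset.mul_sum]
  have h4 : ∑ p ∈ Finset.range 8, ∑ q ∈ Finset.range 8,
      (-1) ^ (p + q) * ((2 * (p : ℤ) - (7 : ℕ)) ^ 2 * d p q) = 16 := by
    simp only [Finset.sum_range_succ, Finset.sum_range_zero, d]
    norm_num
  rw [h4]
  ring

/-- **Sevenfolds**: the rows `0` and `1` and the second moment determine all Hodge numbers. -/
theorem seven_all {X Y : KRing 7} (Φ : FM X Y)
    (hr : ∀ p q : ℤ, (p < 2 ∨ q < 2) → X.h p q = Y.h p q)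
    (hsec : secondMoment X = secondMoment Y) (p q : ℤ) : X.h p q = Y.h p q := by
  obtain ⟨a1, a2⟩ := Φ.hodge_sums 4 3 rfl
  obtain ⟨-, a3⟩ := Φ.hodge_sums 5 2 rfl
  have hs1 : ∀ Z : KRing 7, ∑ i ∈ Finset.range 7, Z.h (((4 : ℕ) : ℤ) - 1 - 2 * i)
      (((3 : ℕ) : ℤ) - 1 - 2 * i) = Z.h 3 2 + Z.h 1 0 := by
    intro Z
    rw [Finset.sum_range_succ', Finset.sum_range_succ', Finset.sum_eq_zero]
    · norm_num
      ring
    · intro i _
      refine Z.h_neg (Or.inr ?_)
      push_cast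
      omega
  rw [hs1, hs1] at a1
  rw [X.sum_first _ _ (by norm_num) (by norm_num), Y.sum_first _ _ (by norm_num) (by norm_num)]
    at a2 a3
  norm_num at a2 a3
  have t0 := Φ.total_all 0 0 {0, 1, 2, 3, 4, 5, 6, 7} (by
    intro k hk
    simp only [Finset.mem_insert, Finset.mem_singleton] at hk
    push_cast
    omega)
  have t2 := Φ.total_all 2 0 {0, 1, 2, 3, 4, 5} (by
    intro k hk
    simp only [Finset.mem_insert, Finset.mem_singleton] at hk
    push_cast
    omega)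
  simp only [Finset.sum_insert (show (0 : ℤ) ∉ ({1, 2, 3, 4, 5, 6, 7} : Finset ℤ) by decide),
    Finset.sum_insert (show (1 : ℤ) ∉ ({2, 3, 4, 5, 6, 7} : Finset ℤ) by decide),
    Finset.sum_insert (show (2 : ℤ) ∉ ({3, 4, 5, 6, 7} : Finset ℤ) by decide),
    Finset.sum_insert (show (3 : ℤ) ∉ ({4, 5, 6, 7} : Finset ℤ) by decide),
    Finset.sum_insert (show (4 : ℤ) ∉ ({5, 6, 7} : Finset ℤ) by decide),
    Finset.sum_insert (show (5 : ℤ) ∉ ({6, 7} : Finset ℤ) by decide),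
    Finset.sum_insert (show (6 : ℤ) ∉ ({7} : Finset ℤ) by decide), Finset.sum_singleton] at t0
  simp only [Finset.sum_insert (show (0 : ℤ) ∉ ({1, 2, 3, 4, 5} : Finset ℤ) by decide),
    Finset.sum_insert (show (1 : ℤ) ∉ ({2, 3, 4, 5} : Finset ℤ) by decide),
    Finset.sum_insert (show (2 : ℤ) ∉ ({3, 4, 5} : Finset ℤ) by decide),
    Finset.sum_insert (show (3 : ℤ) ∉ ({4, 5} : Finset ℤ) by decide),
    Finset.sum_insert (show (4 : ℤ) ∉ ({5} : Finset ℤ) by decide), Finset.sum_singleton] at t2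
  norm_num at t0 t2
  have s1 : ∀ (Z : KRing 7) (p q : ℤ) (k : ℕ), p + q + k = 7 → Z.h (p + k) (q + k) = Z.h p q :=
    fun Z p q k h => (Z.h_symm k (by push_cast; exact h)).symm
  have g : ∀ Z : KRing 7, Z.h 7 7 = Z.h 0 0 ∧ Z.h 6 6 = Z.h 1 1 ∧ Z.h 5 5 = Z.h 2 2 ∧
      Z.h 4 4 = Z.h 3 3 ∧ Z.h 5 4 = Z.h 3 2 ∧ Z.h 7 5 = Z.h 2 0 ∧ Z.h 6 4 = Z.h 3 1 ∧
      Z.h 5 3 = Z.h 4 2 := by
    intro Z
    have r1 := s1 Z 0 0 7 (by norm_num)
    have r2 := s1 Z 1 1 5 (by norm_num)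
    have r3 := s1 Z 2 2 3 (by norm_num)
    have r4 := s1 Z 3 3 1 (by norm_num)
    have r5 := s1 Z 3 2 2 (by norm_num)
    have r6 := s1 Z 2 0 5 (by norm_num)
    have r7 := s1 Z 3 1 3 (by norm_num)
    have r8 := s1 Z 4 2 1 (by norm_num)
    norm_num at r1 r2 r3 r4 r5 r6 r7 r8
    exact ⟨r1, r2, r3, r4, r5, r6, r7, r8⟩
  obtain ⟨g77, g66, g55, g44, g54, g75, g64, g53⟩ := g X
  obtain ⟨k77, k66, k55, k44, k54, k75, k64, k53⟩ := g Y
  rw [g77, g66, g55, g44, k77, k66, k55, k44] at t0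
  rw [g75, g64, g53, k75, k64, k53] at t2
  obtain ⟨b32, b42, b52, b43, h33⟩ := seven_arith (X.h00.trans Y.h00.symm) (hr 1 0 (by norm_num))
    (hr 2 0 (by norm_num)) (hr 3 0 (by norm_num)) (hr 1 1 (by norm_num)) (hr 2 1 (by norm_num))
    (hr 3 1 (by norm_num)) a1 a2 a3 t0 t2
  -- the outer part
  have hout7 : ∀ p q : ℤ, (p < 2 ∨ q < 2 ∨ 5 < p ∨ 5 < q) → X.h p q = Y.h p q := by
    intro p q h
    by_cases hout : p < 0 ∨ q < 0 ∨ ((7 : ℕ) : ℤ) < p ∨ ((7 : ℕ) : ℤ) < q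
    · rw [X.h_zero hout, Y.h_zero hout]
    push_cast at hout
    by_cases hrow : p < 2 ∨ q < 2
    · exact hr p q hrow
    obtain ⟨j, hj⟩ := Int.eq_ofNat_of_zero_le (show 0 ≤ p + q - 7 by omega)
    have h1 : ∀ Z : KRing 7, Z.h p q = Z.h (7 - q) (7 - p) := by
      intro Z
      have := Z.h_symm (p := 7 - q) (q := 7 - p) j (by push_cast; omega)
      rw [this]
      congr 1 <;> omega
    rw [h1 X, h1 Y]
    exact hr _ _ (by omega)
  have hlt : ∀ p q : ℤ, q < p → X.h p q = Y.h p q := by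
    intro p q h
    by_cases hc : p < 2 ∨ q < 2 ∨ 5 < p ∨ 5 < q
    · exact hout7 p q hc
    push Not at hc
    obtain ⟨c1, c2, c3, c4⟩ := hc
    have c5 : 3 ≤ p := by omega
    interval_cases p <;> interval_cases q
    · exact b32
    · exact b42
    · exact b43
    · exact b52
    · rw [g53, k53]; exact b42
    · rw [g54, k54]; exact b32
  have hoff : ∀ p q : ℤ, p ≠ q → X.h p q = Y.h p q := by
    intro p q h
    rcases lt_or_gt_of_ne h with h | h
    · rw [X.h_swap, Y.h_swap]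
      exact hlt q p h
    · exact hlt p q h
  have hm := seven_moment hoff hr h33
  rw [hsec, sub_self] at hm
  have b22 : X.h 2 2 = Y.h 2 2 := by omega
  have b33 : X.h 3 3 = Y.h 3 3 := by omega
  by_cases hpq : p = q
  · subst hpq
    by_cases hc : p < 2 ∨ p < 2 ∨ 5 < p ∨ 5 < p
    · exact hout7 p p hc
    push Not at hc
    obtain ⟨c1, -, c3, -⟩ := hc
    interval_cases p
    · exact b22
    · exact b33
    · rw [g44, k44]; exact b33
    · rw [g55, k55]; exact b22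
  · exact hoff p q hpq

theorem six_arith2 {a10 a30 a21 a41 a32 b10 b30 b21 b41 b32 : ℕ}
    (h10 : a10 = b10) (h30 : a30 = b30)
    (t1 : a10 + (a21 + (a32 + (a32 + (a21 + a10)))) =
      b10 + (b21 + (b32 + (b32 + (b21 + b10)))))
    (t3 : a30 + (a41 + (a41 + a30)) = b30 + (b41 + (b41 + b30))) :
    a41 = b41 ∧ (a32 : ℤ) - b32 = -((a21 : ℤ) - b21) := by
  omega

/-- **Sixfolds**: the row `0`, the second moment and `h^{1,1}` determine all Hodge numbers. -/
theorem six_h11 {X Y : KRing 6} (Φ : FM X Y) (h0 : ∀ q : ℕ, X.h q 0 = Y.h q 0)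
    (hsec : secondMoment X = secondMoment Y) (h11 : X.h 1 1 = Y.h 1 1) (p q : ℤ) :
    X.h p q = Y.h p q := by
  have h0' : ∀ q : ℤ, X.h q 0 = Y.h q 0 := by
    intro q
    by_cases hq : 0 ≤ q
    · obtain ⟨k, rfl⟩ := Int.eq_ofNat_of_zero_le hq
      exact h0 k
    · rw [X.h_zero (by omega), Y.h_zero (by omega)]
  obtain ⟨-, e51, e31⟩ := Φ.edge (by norm_num)
  norm_num at e51 e31
  obtain ⟨a1, -⟩ := Φ.hodge_sums 3 3 rfl
  have hs33 : ∀ Z : KRing 6, ∑ i ∈ Finset.range 6, Z.h (((3 : ℕ) : ℤ) - 1 - 2 * i)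
      (((3 : ℕ) : ℤ) - 1 - 2 * i) = Z.h 2 2 + Z.h 0 0 := by
    intro Z
    rw [Finset.sum_range_succ', Finset.sum_range_succ', Finset.sum_eq_zero]
    · norm_num
      ring
    · intro i _
      refine Z.h_neg (Or.inl ?_)
      push_cast
      omega
  rw [hs33, hs33, X.h00, Y.h00] at a1
  have b22 : X.h 2 2 = Y.h 2 2 := by omega
  have t0 := Φ.total_all 0 0 {0, 1, 2, 3, 4, 5, 6} (by
    intro k hk
    simp only [Finset.mem_insert, Finset.mem_singleton] at hk
    push_cast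
    omega)
  have t1 := Φ.total_all 1 0 {0, 1, 2, 3, 4, 5} (by
    intro k hk
    simp only [Finset.mem_insert, Finset.mem_singleton] at hk
    push_cast
    omega)
  have t2 := Φ.total_all 2 0 {0, 1, 2, 3, 4} (by
    intro k hk
    simp only [Finset.mem_insert, Finset.mem_singleton] at hk
    push_cast
    omega)
  have t3 := Φ.total_all 3 0 {0, 1, 2, 3} (by
    intro k hk
    simp only [Finset.mem_insert, Finset.mem_singleton] at hk
    push_cast
    omega)
  simp only [Finset.sum_insert (show (0 : ℤ) ∉ ({1, 2, 3, 4, 5, 6} : Finset ℤ) by decide),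
    Finset.sum_insert (show (1 : ℤ) ∉ ({2, 3, 4, 5, 6} : Finset ℤ) by decide),
    Finset.sum_insert (show (2 : ℤ) ∉ ({3, 4, 5, 6} : Finset ℤ) by decide),
    Finset.sum_insert (show (3 : ℤ) ∉ ({4, 5, 6} : Finset ℤ) by decide),
    Finset.sum_insert (show (4 : ℤ) ∉ ({5, 6} : Finset ℤ) by decide),
    Finset.sum_insert (show (5 : ℤ) ∉ ({6} : Finset ℤ) by decide), Finset.sum_singleton] at t0
  simp only [Finset.sum_insert (show (0 : ℤ) ∉ ({1, 2, 3, 4, 5} : Finset ℤ) by decide),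
    Finset.sum_insert (show (1 : ℤ) ∉ ({2, 3, 4, 5} : Finset ℤ) by decide),
    Finset.sum_insert (show (2 : ℤ) ∉ ({3, 4, 5} : Finset ℤ) by decide),
    Finset.sum_insert (show (3 : ℤ) ∉ ({4, 5} : Finset ℤ) by decide),
    Finset.sum_insert (show (4 : ℤ) ∉ ({5} : Finset ℤ) by decide), Finset.sum_singleton] at t1
  simp only [Finset.sum_insert (show (0 : ℤ) ∉ ({1, 2, 3, 4} : Finset ℤ) by decide),
    Finset.sum_insert (show (1 : ℤ) ∉ ({2, 3, 4} : Finset ℤ) by decide),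
    Finset.sum_insert (show (2 : ℤ) ∉ ({3, 4} : Finset ℤ) by decide),
    Finset.sum_insert (show (3 : ℤ) ∉ ({4} : Finset ℤ) by decide), Finset.sum_singleton] at t2
  simp only [Finset.sum_insert (show (0 : ℤ) ∉ ({1, 2, 3} : Finset ℤ) by decide),
    Finset.sum_insert (show (1 : ℤ) ∉ ({2, 3} : Finset ℤ) by decide),
    Finset.sum_insert (show (2 : ℤ) ∉ ({3} : Finset ℤ) by decide), Finset.sum_singleton] at t3
  norm_num at t0 t1 t2 t3
  have s1 : ∀ (Z : KRing 6) (p q : ℤ) (k : ℕ), p + q + k = 6 → Z.h (p + k) (q + k) = Z.h p q :=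
    fun Z p q k h => (Z.h_symm k (by push_cast; exact h)).symm
  have g : ∀ Z : KRing 6, Z.h 6 6 = Z.h 0 0 ∧ Z.h 5 5 = Z.h 1 1 ∧ Z.h 4 4 = Z.h 2 2 ∧
      Z.h 6 5 = Z.h 1 0 ∧ Z.h 5 4 = Z.h 2 1 ∧ Z.h 4 3 = Z.h 3 2 ∧ Z.h 6 4 = Z.h 2 0 ∧
      Z.h 5 3 = Z.h 3 1 ∧ Z.h 6 3 = Z.h 3 0 ∧ Z.h 5 2 = Z.h 4 1 ∧ Z.h 6 2 = Z.h 4 0 ∧
      Z.h 6 1 = Z.h 5 0 := by
    intro Z
    have r1 := s1 Z 0 0 6 (by norm_num)
    have r2 := s1 Z 1 1 4 (by norm_num)
    have r3 := s1 Z 2 2 2 (by norm_num)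
    have r4 := s1 Z 1 0 5 (by norm_num)
    have r5 := s1 Z 2 1 3 (by norm_num)
    have r6 := s1 Z 3 2 1 (by norm_num)
    have r7 := s1 Z 2 0 4 (by norm_num)
    have r8 := s1 Z 3 1 2 (by norm_num)
    have r9 := s1 Z 3 0 3 (by norm_num)
    have r10 := s1 Z 4 1 1 (by norm_num)
    have r11 := s1 Z 4 0 2 (by norm_num)
    have r12 := s1 Z 5 0 1 (by norm_num)
    norm_num at r1 r2 r3 r4 r5 r6 r7 r8 r9 r10 r11 r12
    exact ⟨r1, r2, r3, r4, r5, r6, r7, r8, r9, r10, r11, r12⟩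
  obtain ⟨g66, g55, g44, g65, g54, g43, g64, g53, g63, g52, g62, g61⟩ := g X
  obtain ⟨k66, k55, k44, k65, k54, k43, k64, k53, k63, k52, k62, k61⟩ := g Y
  rw [g66, g55, g44, k66, k55, k44, h11, b22, X.h00, Y.h00] at t0
  rw [g65, g54, g43, k65, k54, k43] at t1
  rw [g64, g53, k64, k53, h0' 2, e31] at t2
  rw [g63, g52, k63, k52] at t3
  have b33 : X.h 3 3 = Y.h 3 3 := by omega
  have b42 : X.h 4 2 = Y.h 4 2 := by omega
  obtain ⟨b41, h32⟩ := six_arith2 (h0' 1) (h0' 3) t1 t3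
  -- the second moment
  have hsw : ∀ Z : KRing 6, Z.h 0 1 = Z.h 1 0 ∧ Z.h 0 2 = Z.h 2 0 ∧ Z.h 0 3 = Z.h 3 0 ∧
      Z.h 0 4 = Z.h 4 0 ∧ Z.h 0 5 = Z.h 5 0 ∧ Z.h 0 6 = Z.h 6 0 ∧ Z.h 1 2 = Z.h 2 1 ∧
      Z.h 1 3 = Z.h 3 1 ∧ Z.h 1 4 = Z.h 4 1 ∧ Z.h 1 5 = Z.h 5 1 ∧ Z.h 1 6 = Z.h 6 1 ∧
      Z.h 2 3 = Z.h 3 2 ∧ Z.h 2 4 = Z.h 4 2 ∧ Z.h 2 5 = Z.h 5 2 ∧ Z.h 2 6 = Z.h 6 2 ∧
      Z.h 3 4 = Z.h 4 3 ∧ Z.h 3 5 = Z.h 5 3 ∧ Z.h 3 6 = Z.h 6 3 ∧ Z.h 4 5 = Z.h 5 4 ∧
      Z.h 4 6 = Z.h 6 4 ∧ Z.h 5 6 = Z.h 6 5 := fun Z =>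
    ⟨Z.h_swap _ _, Z.h_swap _ _, Z.h_swap _ _, Z.h_swap _ _, Z.h_swap _ _, Z.h_swap _ _,
      Z.h_swap _ _, Z.h_swap _ _, Z.h_swap _ _, Z.h_swap _ _, Z.h_swap _ _, Z.h_swap _ _,
      Z.h_swap _ _, Z.h_swap _ _, Z.h_swap _ _, Z.h_swap _ _, Z.h_swap _ _, Z.h_swap _ _,
      Z.h_swap _ _, Z.h_swap _ _, Z.h_swap _ _⟩
  have hs : ∀ Z : KRing 6, Z.h 0 0 = Y.h 0 0 → Z.h 1 0 = Y.h 1 0 → Z.h 2 0 = Y.h 2 0 →
      Z.h 3 0 = Y.h 3 0 → Z.h 4 0 = Y.h 4 0 → Z.h 5 0 = Y.h 5 0 → Z.h 6 0 = Y.h 6 0 →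
      Z.h 1 1 = Y.h 1 1 → Z.h 3 1 = Y.h 3 1 → Z.h 4 1 = Y.h 4 1 → Z.h 5 1 = Y.h 5 1 →
      Z.h 2 2 = Y.h 2 2 → Z.h 4 2 = Y.h 4 2 → Z.h 3 3 = Y.h 3 3 →
      secondMoment Z = 72 * (Y.h 0 0 : ℤ) - 104 * Y.h 1 0 + 80 * Y.h 2 0 - 72 * Y.h 3 0 +
        80 * Y.h 4 0 - 104 * Y.h 5 0 + 72 * Y.h 6 0 + 32 * Y.h 1 1 + 32 * Y.h 3 1 -
        40 * Y.h 4 1 + 32 * Y.h 5 1 + 8 * Y.h 2 2 + 8 * Y.h 4 2 - 40 * Z.h 2 1 -
        8 * Z.h 3 2 := by
    intro Z c00 c10 c20 c30 c40 c50 c60 c11 c31 c41 c51 c22 c42 c33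
    obtain ⟨w01, w02, w03, w04, w05, w06, w12, w13, w14, w15, w16, w23, w24, w25, w26, w34, w35,
      w36, w45, w46, w56⟩ := hsw Z
    obtain ⟨m66, m55, m44, m65, m54, m43, m64, m53, m63, m52, m62, m61⟩ := g Z
    unfold secondMoment
    simp only [Finset.sum_range_succ, Finset.sum_range_zero]
    norm_num
    rw [w01, w02, w03, w04, w05, w06, w12, w13, w14, w15, w16, w23, w24, w25, w26, w45, w46, w56]
    rw [m66, m55, m44, m65, m54, m43, m64, m53, m63, m52, m62, m61]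
    rw [c00, c10, c20, c30, c40, c50, c60, c11, c31, c41, c51, c22, c42]
    ring
  have hX := hs X (X.h00.trans Y.h00.symm) (h0' 1) (h0' 2) (h0' 3) (h0' 4) (h0' 5) (h0' 6) h11 e31
    b41 e51 b22 b42 b33
  have hY := hs Y rfl rfl rfl rfl rfl rfl rfl rfl rfl rfl rfl rfl rfl rfl
  rw [hsec, hY] at hX
  have b21 : X.h 2 1 = Y.h 2 1 := by
    clear hs hsw g s1 t0 t1 t2 t3
    generalize (X.h 2 1) = x21 at *
    generalize (X.h 3 2) = x32 at *
    generalize (Y.h 2 1) = y21 at *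
    generalize (Y.h 3 2) = y32 at *
    have h : (x21 : ℤ) = y21 := by linarith
    exact_mod_cast h
  refine six_all Φ (fun p q hpq => ?_) p q
  have key : ∀ p q : ℤ, q < 2 → X.h p q = Y.h p q := by
    intro p q hq
    by_cases hout : p < 0 ∨ q < 0 ∨ ((6 : ℕ) : ℤ) < p ∨ ((6 : ℕ) : ℤ) < q
    · rw [X.h_zero hout, Y.h_zero hout]
    push_cast at hout
    have hq0 : q = 0 ∨ q = 1 := by omega
    rcases hq0 with rfl | rfl
    · exact h0' p
    · have hp : p = 0 ∨ p = 1 ∨ p = 2 ∨ p = 3 ∨ p = 4 ∨ p = 5 ∨ p = 6 := by omega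
      rcases hp with rfl | rfl | rfl | rfl | rfl | rfl | rfl
      · rw [X.h_swap, Y.h_swap]; exact h0' 1
      · exact h11
      · exact b21
      · exact e31
      · exact b41
      · exact e51
      · rw [g61, k61]; exact h0' 5
  rcases hpq with h | h
  · rw [X.h_swap, Y.h_swap]
    exact key q p h
  · exact key p q h

end Pool.Agent.E8helper34.DI
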