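import Pool.Agent.E8helper34.DI.Lim

/-!
# Holomorphic forms and the hermitian forms of a semipositive class
-/

open scoped ComplexConjugate Topology
open Module Filter

namespace Pool.Agent.E8helper34.DI

open Pool.Agent.W539.DI Pool.Agent.R929.DH

variable {n : ℕ}

/-- The real class `L` of type `(1, 1)` is represented by a semipositive closed form `λ` (for
instance the pull-back of an ample class by a morphism):

* `nef`: `L + t ω` is a Kähler class for all `t > 0`, where `ω` is the given Kähler class;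
* `pos`: for a holomorphic `r`-form `x` the integral of `i^{r²} λ^j ω^{n-r-j} x ∧ conj x` is
  nonnegative pointwise, and it vanishes pointwise only if the form `λ^j ∧ x` is zero; so it is
  positive if the class `L^j x` is not zero. -/
structure SemiPositive (X : KRing n) (L : X.R) : Prop where
  mem : L ∈ X.H (1, 1)
  real : X.bar L = L
  nef : ∀ t : ℝ, 0 < t → IsKahler X (L + (t : ℂ) • X.ω)
  pos : ∀ r j i : ℕ, r + j + i = n → ∀ x ∈ X.H ((r : ℤ), 0), L ^ j * x ≠ 0 →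
    ∃ ρ : ℝ, 0 < ρ ∧ Complex.I ^ (r : ℤ) * (-1 : ℂ) ^ ((r : ℤ) * (r - 1) / 2) *
      X.tr (L ^ j * (X.ω ^ i * (x * X.bar x))) = (ρ : ℂ)

/-- The holomorphic `r`-forms `x` with `L ^ j x = 0`. -/
noncomputable def kerForms (X : KRing n) (L : X.R) (r j : ℕ) : Submodule ℂ X.R :=
  X.H ((r : ℤ), 0) ⊓ LinearMap.ker (ml X (L ^ j))

theorem mem_kerForms {X : KRing n} {L : X.R} {r j : ℕ} {x : X.R} :
    x ∈ kerForms X L r j ↔ x ∈ X.H ((r : ℤ), 0) ∧ L ^ j * x = 0 := Iff.rfl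

section

variable {X : KRing n} {L : X.R}

theorem sg_one (r : ℕ) : sg ((r : ℤ) + 1) 1 = (-1 : ℝ) ^ ((r : ℤ) * (r - 1) / 2) := by
  have h := sg_pred ((r : ℤ) + 1) 1
  rw [← h]
  unfold sg
  simp

theorem mul_mem' {v : X.R} (hv : v ∈ X.H (1, 1)) {p q : ℤ} {x : X.R} (hx : x ∈ X.H (p, q)) :
    v * x ∈ X.H (p + 1, q + 1) := by
  have := X.mul_mem hv hx
  rwa [add_comm 1 p, add_comm 1 q] at this

/-- Multiplication by `ω²` for forms. -/
theorem hf_omega_sq (hm : L ∈ X.H (1, 1)) {r k : ℕ} {y : X.R}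
    (hy : y ∈ X.H ((r : ℤ), 0)) :
    hf X L k y (X.ω ^ 2 * y) = Complex.I ^ (r : ℤ) * X.tr (L ^ k * (X.ω ^ 2 * (y * X.bar y))) ∧
    hf X L k (X.ω ^ 2 * y) y = Complex.I ^ (r : ℤ) * X.tr (L ^ k * (X.ω ^ 2 * (y * X.bar y))) := by
  have hy2 := X.pow_mul_mem X.ω_mem 2 hy
  constructor
  · rw [hf_hom hm hy, add_zero]
    congr 2
    rw [bar_pow X.ω_bar, ← mul_assoc y, ← pow_central X.ω_mem, mul_assoc]
  · rw [hf_hom hm hy2]
    have e : Complex.I ^ ((r : ℤ) + ((2 : ℕ) : ℤ) + (0 + ((2 : ℕ) : ℤ))) = Complex.I ^ (r : ℤ) := by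
      rw [show ((r : ℤ) + ((2 : ℕ) : ℤ) + (0 + ((2 : ℕ) : ℤ))) = (r : ℤ) + ((4 : ℕ) : ℤ) by
        push_cast; ring, zpow_add₀ Complex.I_ne_zero, zpow_natCast, zpow_natCast, Complex.I_pow_four,
        mul_one]
    rw [e]
    congr 2
    rw [mul_assoc]

/-- **Negative subspace** of dimension twice the number of forms with `L ^ k x ≠ 0`. -/
theorem exists_neg (hL : SemiPositive X L) {r k : ℕ} (h : r + k + 2 = n) :
    ∃ S : Submodule ℂ X.R, S ≤ (⨆ t : ℤ, X.H ((r : ℤ) + 1 + t, 1 + t)) ∧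
      (∀ x ∈ S, x ≠ 0 → sg ((r : ℤ) + 1) 1 * bf X L k x x < 0) ∧
      finrank ℂ S + 2 * finrank ℂ (kerForms X L r k) = 2 * X.h r 0 := by
  obtain ⟨C, hC, hGC, hdim⟩ := exists_compl_in (G := kerForms X L r k) (S := X.H ((r : ℤ), 0))
    inf_le_left
  have hpos : ∀ y ∈ C, y ≠ 0 → ∃ ρ : ℝ, 0 < ρ ∧ ((sg ((r : ℤ) + 1) 1 : ℝ) : ℂ) *
      (Complex.I ^ (r : ℤ) * X.tr (L ^ k * (X.ω ^ 2 * (y * X.bar y)))) = (ρ : ℂ) := by
    intro y hy hy0
    have hne : L ^ k * y ≠ 0 := by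
      intro h0
      have : y ∈ kerForms X L r k ⊓ C := ⟨⟨hC hy, h0⟩, hy⟩
      rw [hGC, Submodule.mem_bot] at this
      exact hy0 this
    obtain ⟨ρ, hρ, he⟩ := hL.pos r k 2 (by omega) y (hC hy) hne
    refine ⟨ρ, hρ, ?_⟩
    rw [← he, sg_one]
    push_cast
    ring
  let T : X.R × X.R →ₗ[ℂ] X.R := LinearMap.coprod (ml X X.ω) (LinearMap.id - ml X (X.ω ^ 2))
  have hT : ∀ x y, T (x, y) = X.ω * x + (y - X.ω ^ 2 * y) := fun x y => rfl
  have hneg : ∀ x ∈ C, ∀ y ∈ C, (x ≠ 0 ∨ y ≠ 0) →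
      sg ((r : ℤ) + 1) 1 * bf X L k (T (x, y)) (T (x, y)) < 0 := by
    intro x hx y hy hxy
    have hxH := hC hx
    have hyH := hC hy
    have hox : X.ω * x ∈ X.H ((r : ℤ) + 1, 0 + 1) := mul_mem' X.ω_mem hxH
    have hoy : X.ω ^ 2 * y ∈ X.H ((r : ℤ) + (2 : ℕ), 0 + (2 : ℕ)) := X.pow_mul_mem X.ω_mem 2 hyH
    have z1 : hf X L k y y = 0 := hf_zero hL.mem hyH hyH (by omega)
    have z2 : hf X L k (X.ω ^ 2 * y) (X.ω ^ 2 * y) = 0 :=
      hf_zero hL.mem hoy hoy (by push_cast; omega)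
    have z3 : hf X L k (X.ω * x) y = 0 := hf_zero hL.mem hox hyH (by omega)
    have z4 : hf X L k y (X.ω * x) = 0 := hf_zero hL.mem hyH hox (by push_cast; omega)
    have z5 : hf X L k (X.ω * x) (X.ω ^ 2 * y) = 0 :=
      hf_zero hL.mem hox hoy (by push_cast; omega)
    have z6 : hf X L k (X.ω ^ 2 * y) (X.ω * x) = 0 :=
      hf_zero hL.mem hoy hox (by push_cast; omega)
    obtain ⟨w1, w2⟩ := hf_omega_sq (L := L) (k := k) hL.mem hyH
    have hxx : hf X L k (X.ω * x) (X.ω * x) =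
        -(Complex.I ^ (r : ℤ) * X.tr (L ^ k * (X.ω ^ 2 * (x * X.bar x)))) := by
      rw [hf_mul_left X.ω_mem, X.bar_mul, X.ω_bar, X.dual_of hxH, smul_mul_assoc, map_smul,
        smul_eq_mul, add_zero]
      congr 2
      congr 1
      rw [← mul_assoc X.ω (L ^ k), X.central X.ω_mem (L ^ k), mul_assoc (L ^ k),
        ← mul_assoc x, ← pow_central hL.mem, mul_assoc (L ^ k), ← mul_assoc X.ω X.ω,
        ← mul_assoc x, ← pow_two, ← pow_central X.ω_mem, mul_assoc]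
    have hsub : T (x, y) = X.ω * x + (y + (-1 : ℂ) • (X.ω ^ 2 * y)) := by
      rw [hT, neg_one_smul, sub_eq_add_neg]
    have hval : hf X L k (T (x, y)) (T (x, y)) =
        -(Complex.I ^ (r : ℤ) * X.tr (L ^ k * (X.ω ^ 2 * (x * X.bar x)))) +
        -2 * (Complex.I ^ (r : ℤ) * X.tr (L ^ k * (X.ω ^ 2 * (y * X.bar y)))) := by
      rw [hsub]
      simp only [hf_add_left, hf_add_right, hf_smul_left, hf_smul_right, z1, z2, z3, z4, z5, z6,
        w1, w2, hxx]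
      simp only [map_neg, map_one]
      ring
    have hre : sg ((r : ℤ) + 1) 1 * bf X L k (T (x, y)) (T (x, y)) =
        -2 * (((sg ((r : ℤ) + 1) 1 : ℝ) : ℂ) * (Complex.I ^ (r : ℤ) *
          X.tr (L ^ k * (X.ω ^ 2 * (x * X.bar x))))).re +
        -4 * (((sg ((r : ℤ) + 1) 1 : ℝ) : ℂ) * (Complex.I ^ (r : ℤ) *
          X.tr (L ^ k * (X.ω ^ 2 * (y * X.bar y))))).re := by
      rw [bf_self, hval, Complex.re_ofReal_mul, Complex.re_ofReal_mul]
      have e2 : ∀ z : ℂ, (-2 * z).re = -2 * z.re := fun z => by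
        simp
      rw [Complex.add_re, Complex.neg_re, e2]
      ring
    rw [hre]
    have hzero : ∀ z : X.R, z = 0 → ((((sg ((r : ℤ) + 1) 1 : ℝ) : ℂ) * (Complex.I ^ (r : ℤ) *
          X.tr (L ^ k * (X.ω ^ 2 * (z * X.bar z))))).re = 0) := by
      rintro z rfl
      simp
    have hnn : ∀ z ∈ C, 0 ≤ ((((sg ((r : ℤ) + 1) 1 : ℝ) : ℂ) * (Complex.I ^ (r : ℤ) *
          X.tr (L ^ k * (X.ω ^ 2 * (z * X.bar z))))).re) := by
      intro z hz
      by_cases hz0 : z = 0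
      · exact (hzero z hz0).ge
      · obtain ⟨ρ, hρ, he⟩ := hpos z hz hz0
        rw [he, Complex.ofReal_re]
        exact hρ.le
    have hx1 := hnn x hx
    have hy1 := hnn y hy
    rcases hxy with h0 | h0
    · obtain ⟨ρ, hρ, he⟩ := hpos x hx h0
      rw [he, Complex.ofReal_re]
      linarith
    · obtain ⟨ρ, hρ, he⟩ := hpos y hy h0
      rw [he, Complex.ofReal_re]
      linarith
  let T' : (C × C) →ₗ[ℂ] X.R := T ∘ₗ (C.subtype.prodMap C.subtype)
  have hT' : ∀ z : C × C, T' z = T ((z.1 : X.R), (z.2 : X.R)) := fun z => rfl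
  refine ⟨LinearMap.range T', ?_, ?_, ?_⟩
  · rintro _ ⟨⟨⟨x, hx⟩, ⟨y, hy⟩⟩, rfl⟩
    rw [hT', hT]
    have hxH := hC hx
    have hyH := hC hy
    refine Submodule.add_mem _ ?_ (Submodule.sub_mem _ ?_ ?_)
    · refine Submodule.mem_iSup_of_mem 0 ?_
      have := mul_mem' X.ω_mem hxH
      simpa using this
    · refine Submodule.mem_iSup_of_mem (-1) ?_
      have e : (((r : ℤ) + 1 + -1, 1 + -1) : ℤ × ℤ) = ((r : ℤ), 0) := by ext <;> simp
      rw [e]
      exact hyH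
    · refine Submodule.mem_iSup_of_mem 1 ?_
      have e : (((r : ℤ) + 1 + 1, 1 + 1) : ℤ × ℤ) = ((r : ℤ) + ((2 : ℕ) : ℤ), 0 + ((2 : ℕ) : ℤ)) := by
        ext
        · simp
          ring
        · simp
      rw [e]
      exact X.pow_mul_mem X.ω_mem 2 hyH
  · rintro _ ⟨⟨⟨x, hx⟩, ⟨y, hy⟩⟩, rfl⟩ h0
    refine hneg x hx y hy ?_
    by_contra hcon
    push Not at hcon
    obtain ⟨h1, h2⟩ := hcon
    apply h0
    rw [hT']
    simp only [h1, h2]
    exact map_zero T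
  · have hinj : Function.Injective T' := by
      rw [injective_iff_map_eq_zero]
      rintro ⟨⟨x, hx⟩, ⟨y, hy⟩⟩ h0
      by_contra hne
      have h2 : x ≠ 0 ∨ y ≠ 0 := by
        by_contra hcon
        push Not at hcon
        obtain ⟨h1, h2⟩ := hcon
        apply hne
        subst h1
        subst h2
        rfl
      have h3 := hneg x hx y hy h2
      have h4 : T (x, y) = 0 := h0
      rw [h4] at h3
      have h5 := (isHerm (X := X) (w := L) (k := k) (sg ((r : ℤ) + 1) 1)).zero_left 0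
      exact absurd h5 (ne_of_lt h3)
    rw [LinearMap.finrank_range_of_inj hinj, Module.finrank_prod]
    unfold KRing.h
    omega

end

end Pool.Agent.E8helper34.DI
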