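import Pool.Agent.E8helper34.DI.Semi

/-!
# Holomorphic forms and the hermitian forms of a semipositive class: the limit
-/

open scoped ComplexConjugate Topology
open Module Filter

namespace Pool.Agent.E8helper34.DI

open Pool.Agent.W539.DI Pool.Agent.R929.DH

variable {n : ℕ} {X : KRing n} {L : X.R}

/-- The forms of `L + t ω` depend continuously on `t` and on the vector. -/
theorem continuous_form (X : KRing n) (L : X.R) (k : ℕ) {E : Type*} [NormedAddCommGroup E]
    [NormedSpace ℂ E] [FiniteDimensional ℂ E] (φ : E →ₗ[ℂ] X.R) :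
    Continuous (fun p : ℝ × E => hf X (L + ((p.1 : ℝ) : ℂ) • X.ω) k (φ p.2) (φ p.2)) := by
  let b := Module.finBasis ℂ X.R
  have hb : ∀ x : X.R, x = ∑ i, (b.coord i x) • b i := fun x => by
    simp [Module.Basis.sum_repr]
  have hsum : ∀ (w x y : X.R),
      hf X w k x y = ∑ i, ∑ j, b.coord i x * (conj (b.coord j y) * hf X w k (b i) (b j)) := by
    intro w x y
    have h1 : ∀ (s : Finset (Fin (finrank ℂ X.R))) (z : Fin (finrank ℂ X.R) → ℂ) (y : X.R),
        hf X w k (∑ i ∈ s, z i • b i) y = ∑ i ∈ s, z i * hf X w k (b i) y := by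
      intro s z y
      induction s using Finset.cons_induction with
      | empty =>
        have := hf_smul_left (X := X) (w := w) (k := k) 0 0 y
        simpa using this
      | cons a s ha ih => rw [Finset.sum_cons, Finset.sum_cons, hf_add_left, hf_smul_left, ih]
    have h2 : ∀ (s : Finset (Fin (finrank ℂ X.R))) (z : Fin (finrank ℂ X.R) → ℂ) (y : X.R),
        hf X w k y (∑ i ∈ s, z i • b i) =
          ∑ i ∈ s, conj (z i) * hf X w k y (b i) := by
      intro s z y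
      induction s using Finset.cons_induction with
      | empty =>
        have := hf_smul_right (X := X) (w := w) (k := k) 0 y 0
        simpa using this
      | cons a s ha ih => rw [Finset.sum_cons, Finset.sum_cons, hf_add_right, hf_smul_right, ih]
    conv_lhs => rw [hb x, h1]
    refine Finset.sum_congr rfl fun i _ => ?_
    conv_lhs => rw [hb y, h2]
    rw [Finset.mul_sum]
  have hlin : ∀ f : E →ₗ[ℂ] ℂ, Continuous (fun p : ℝ × E => f p.2) := fun f =>
    (LinearMap.continuous_of_finiteDimensional f).comp continuous_snd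
  rw [show (fun p : ℝ × E => hf X (L + ((p.1 : ℝ) : ℂ) • X.ω) k (φ p.2) (φ p.2)) = fun p =>
    ∑ i, ∑ j, b.coord i (φ p.2) * (conj (b.coord j (φ p.2)) *
      hf X (L + ((p.1 : ℝ) : ℂ) • X.ω) k (b i) (b j)) from funext fun p => hsum _ _ _]
  refine continuous_finsetSum _ fun i _ => continuous_finsetSum _ fun j _ => ?_
  refine Continuous.mul (hlin (b.coord i ∘ₗ φ)) (Continuous.mul ?_ ?_)
  · exact Complex.continuous_conj.comp (hlin (b.coord j ∘ₗ φ))
  · exact (continuous_tr L k (X.dual (b i)) (X.bar (b j))).comp continuous_fst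

theorem hr_nonneg {w : X.R} (hw : IsKahler X w) {p q : ℤ} {k : ℕ} (hk : p + q + k = n)
    {x : X.R} (hx : x ∈ X.H (p, q)) (h0 : w ^ (k + 1) * x = 0) :
    0 ≤ sg p q * bf X w k x x := by
  by_cases hx0 : x = 0
  · rw [hx0]
    exact ((isHerm (X := X) (w := w) (k := k) (sg p q)).zero_left 0).ge
  · obtain ⟨ρ, hρ, he⟩ := hw.hr p q k hk x hx hx0 h0
    rw [hf_sign hw.mem hx] at he
    have h2 := congrArg Complex.re he
    rw [Complex.re_ofReal_mul, Complex.ofReal_re] at h2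
    rw [bf_self]
    linarith

/-- The expansion of `(L + t ω)^N g` if `L^(m+1) g = 0`. -/
theorem pow_add_mul (hm : L ∈ X.H (1, 1)) (N m : ℕ) (hmN : m < N) (t : ℂ) (g : X.R)
    (hg : L ^ (m + 1) * g = 0) :
    (L + t • X.ω) ^ N * g = ∑ j ∈ Finset.range (m + 1),
      ((N.choose j : ℂ) * t ^ (N - j)) • (L ^ j * (X.ω ^ (N - j) * g)) := by
  have hc : Commute L (t • X.ω) := by
    refine (show Commute L X.ω from X.central hm X.ω).smul_right t
  rw [hc.add_pow, Finset.sum_mul]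
  have hterm : ∀ j, L ^ j * (t • X.ω) ^ (N - j) * ((N.choose j : ℕ) : X.R) * g =
      ((N.choose j : ℂ) * t ^ (N - j)) • (L ^ j * (X.ω ^ (N - j) * g)) := by
    intro j
    have hcast : ((N.choose j : ℕ) : X.R) * g = (N.choose j : ℂ) • g := by
      rw [← nsmul_eq_mul, Nat.cast_smul_eq_nsmul]
    rw [smul_pow, mul_smul_comm, smul_mul_assoc, smul_mul_assoc, mul_assoc, mul_assoc, hcast,
      mul_smul_comm, mul_smul_comm, smul_smul, mul_comm]
  simp only [hterm]
  symm
  refine Finset.sum_subset (Finset.range_subset_range.2 (by omega)) fun j hj hj2 => ?_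
  rw [Finset.mem_range] at hj hj2
  have h1 : L ^ j * (X.ω ^ (N - j) * g) = 0 := by
    rw [← mul_assoc, pow_central hm, mul_assoc, show j = (j - (m + 1)) + (m + 1) by omega, pow_add,
      mul_assoc, hg, mul_zero, mul_zero]
  rw [h1, smul_zero]

theorem exists_nonneg_aux (hL : SemiPositive X L) {r k : ℕ} (h : r + k + 2 = n) {E : Type*}
    [NormedAddCommGroup E] [InnerProductSpace ℂ E] [FiniteDimensional ℂ E] (φ : E ≃ₗ[ℂ] X.R)
    (t : ℕ → ℝ) (ht : ∀ i, 0 < t i) (ht0 : Tendsto t atTop (𝓝 0)) (w : ℕ → X.R)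
    (hwt : ∀ i, w i = L + ((t i : ℝ) : ℂ) • X.ω) (Q : ℕ → Submodule ℂ X.R)
    (hQdef : ∀ i, Q i = X.H ((r : ℤ) + 1, 1) ⊓ LinearMap.ker (ml X (w i ^ (k + 1)))) :
    ∃ M' : Submodule ℂ X.R, M' ≤ X.H ((r : ℤ) + 1, 1) ∧
      (∀ x ∈ M', 0 ≤ sg ((r : ℤ) + 1) 1 * bf X L k x x) ∧
      X.h ((r : ℤ) + 1) 1 + finrank ℂ (kerForms X L r k) ≤ finrank ℂ M' + X.h r 0 := by
  classical
  have hQm : ∀ i x, x ∈ Q i → x ∈ X.H ((r : ℤ) + 1, 1) ∧ w i ^ (k + 1) * x = 0 := by
    intro i x hx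
    rw [hQdef] at hx
    exact hx
  have hw : ∀ i, IsKahler X (w i) := fun i => by rw [hwt]; exact hL.nef (t i) (ht i)
  have hQ : ∀ i, X.h ((r : ℤ) + 1) 1 - X.h r 0 ≤ finrank ℂ (Q i) := by
    intro i
    have h1 := finrank_le_ker (ml X (w i ^ (k + 1))) (X.H ((r : ℤ) + 1, 1))
      (X.H ((r : ℤ) + ((k + 2 : ℕ) : ℤ), 0 + ((k + 2 : ℕ) : ℤ))) (by
        intro x hx
        have := X.pow_mul_mem (hw i).mem (k + 1) hx
        have e : (((r : ℤ) + 1 + ((k + 1 : ℕ) : ℤ), 1 + ((k + 1 : ℕ) : ℤ)) : ℤ × ℤ) =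
            ((r : ℤ) + ((k + 2 : ℕ) : ℤ), 0 + ((k + 2 : ℕ) : ℤ)) := by
          ext <;> push_cast <;> ring
        rw [e] at this
        exact this)
    have h2 : X.h r 0 = X.h ((r : ℤ) + ((k + 2 : ℕ) : ℤ)) (0 + ((k + 2 : ℕ) : ℤ)) :=
      X.h_symm (k + 2) (by push_cast; omega)
    rw [h2, hQdef]
    unfold KRing.h
    omega
  have hcomap : ∀ S : Submodule ℂ X.R, finrank ℂ (S.comap (φ : E →ₗ[ℂ] X.R)) =
      finrank ℂ S := by
    intro S
    have e : S.comap (φ : E →ₗ[ℂ] X.R) =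
        S.map (φ.symm : X.R →ₗ[ℂ] E) :=
      (Submodule.map_equiv_eq_comap_symm φ.symm S).symm
    rw [e]
    exact LinearEquiv.finrank_map_eq φ.symm S
  obtain ⟨P₀, σ, hσ, hdim, hlim⟩ := limit_subspace
    (fun i => (Q i).comap (φ : E →ₗ[ℂ] X.R))
    (X.h ((r : ℤ) + 1) 1 - X.h r 0) (fun i => by rw [hcomap]; exact hQ i)
  have htσ : Tendsto (fun i => t (σ i)) atTop (𝓝 0) := ht0.comp hσ.tendsto_atTop
  -- the limit is contained in the space of classes
  have hP₀ : ∀ x ∈ P₀, φ x ∈ X.H ((r : ℤ) + 1, 1) := by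
    intro x hx
    obtain ⟨y, hy, hyx⟩ := hlim x hx
    have hcl : IsClosed (((X.H ((r : ℤ) + 1, 1)).comap
        (φ : E →ₗ[ℂ] X.R) : Submodule ℂ (E)) :
          Set (E)) := Submodule.closed_of_finiteDimensional _
    exact hcl.mem_of_tendsto hyx (Eventually.of_forall fun i => (hQm _ _ (hy i)).1)
  -- the form is nonnegative on the limit
  have hpos : ∀ x ∈ P₀, 0 ≤ sg ((r : ℤ) + 1) 1 * bf X L k (φ x) (φ x) := by
    intro x hx
    obtain ⟨y, hy, hyx⟩ := hlim x hx
    have hcont : Continuous (fun p : ℝ × E =>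
        hf X (L + ((p.1 : ℝ) : ℂ) • X.ω) k (φ p.2) (φ p.2)) := by
      simpa only [LinearEquiv.coe_coe] using continuous_form X L k (φ : E →ₗ[ℂ] X.R)
    have h1 : Tendsto (fun i => sg ((r : ℤ) + 1) 1 *
        (2 * (hf X (w (σ i)) k (φ (y i)) (φ (y i))).re)) atTop
        (𝓝 (sg ((r : ℤ) + 1) 1 * (2 * (hf X (L + ((0 : ℝ) : ℂ) • X.ω) k (φ x) (φ x)).re))) := by
      have hg : Tendsto (fun i => ((t (σ i), y i) : ℝ × E)) atTop
          (𝓝 ((0 : ℝ), x)) := htσ.prodMk_nhds hyx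
      have h0 : Tendsto (fun i => hf X (w (σ i)) k (φ (y i)) (φ (y i))) atTop
          (𝓝 (hf X (L + ((0 : ℝ) : ℂ) • X.ω) k (φ x) (φ x))) := by
        have h0' := (hcont.tendsto ((0 : ℝ), x)).comp hg
        simp only [Function.comp_def] at h0'
        simp only [hwt]
        exact h0'
      have h00 : Tendsto (fun i => (hf X (w (σ i)) k (φ (y i)) (φ (y i))).re) atTop
          (𝓝 (hf X (L + ((0 : ℝ) : ℂ) • X.ω) k (φ x) (φ x)).re) :=
        (Complex.continuous_re.tendsto _).comp h0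
      exact (h00.const_mul 2).const_mul (sg ((r : ℤ) + 1) 1)
    have h2 : ∀ i, 0 ≤ sg ((r : ℤ) + 1) 1 * (2 * (hf X (w (σ i)) k (φ (y i)) (φ (y i))).re) := by
      intro i
      rw [← bf_self]
      exact hr_nonneg (hw (σ i)) (by omega) (hQm _ _ (hy i)).1 (hQm _ _ (hy i)).2
    have h3 := ge_of_tendsto' h1 h2
    rw [Complex.ofReal_zero, zero_smul, add_zero, ← bf_self] at h3
    exact h3
  -- the classes `ω g` with `L ^ k g = 0` are not in the limit
  have hdis : ∀ x ∈ P₀, ∀ g ∈ kerForms X L r k, φ x = X.ω * g → g = 0 := by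
    intro x hx g hg hxg
    by_contra hg0
    obtain ⟨hgH, hgk⟩ := mem_kerForms.1 hg
    have hex : ∃ m, L ^ m * g = 0 := ⟨k, hgk⟩
    obtain ⟨m', hm'⟩ : ∃ m', Nat.find hex = m' + 1 := by
      refine Nat.exists_eq_succ_of_ne_zero fun h0 => hg0 ?_
      have := Nat.find_spec hex
      rw [h0, pow_zero, one_mul] at this
      exact this
    have hm1 : L ^ (m' + 1) * g = 0 := by
      rw [← hm']
      exact Nat.find_spec hex
    have hm2 : L ^ m' * g ≠ 0 := Nat.find_min hex (by omega)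
    have hmk : m' + 1 ≤ k := by
      rw [← hm']
      exact Nat.find_min' hex hgk
    obtain ⟨y, hy, hyx⟩ := hlim x hx
    have hbar : L ^ (m' + 1) * X.bar g = 0 := by
      rw [← bar_pow hL.real, hm1, map_zero]
    -- the rescaled relation
    let Ψ : ℝ × E → ℂ := fun p => ∑ j ∈ Finset.range (m' + 1),
      (((k + 1).choose j : ℂ) * ((p.1 : ℝ) : ℂ) ^ (m' - j)) *
        X.tr (X.dual (φ p.2) * (L ^ j * (X.ω ^ (k + 1 - j) * X.bar g)))
    have hΨc : Continuous Ψ := by
      refine continuous_finsetSum _ fun j _ => ?_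
      refine Continuous.mul (continuous_const.mul ?_) ?_
      · exact (Complex.continuous_ofReal.comp continuous_fst).pow _
      · let f : E →ₗ[ℂ] ℂ := X.tr ∘ₗ
          (LinearMap.mulRight ℂ (L ^ j * (X.ω ^ (k + 1 - j) * X.bar g))) ∘ₗ X.dual ∘ₗ
            (φ : E →ₗ[ℂ] X.R)
        have hf : Continuous f := LinearMap.continuous_of_finiteDimensional f
        exact hf.comp continuous_snd
    have hΨ0 : ∀ i, Ψ (t (σ i), y i) = 0 := by
      intro i
      have h1 : w (σ i) ^ (k + 1) * φ (y i) = 0 := (hQm _ _ (hy i)).2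
      have h2 : X.tr (X.dual (φ (y i)) * (w (σ i) ^ (k + 1) * X.bar g)) = 0 := by
        have hyH : φ (y i) ∈ X.H ((r : ℤ) + 1, 1) := (hQm _ _ (hy i)).1
        rw [X.dual_of hyH, ← mul_assoc, smul_mul_assoc, ← pow_central (hw (σ i)).mem, h1, smul_zero,
          zero_mul, map_zero]
      rw [hwt, pow_add_mul hL.mem (k + 1) m' (by omega) _ _ hbar, Finset.mul_sum, map_sum] at h2
      have h3 : ((t (σ i) : ℝ) : ℂ) ^ (k + 1 - m') * Ψ (t (σ i), y i) = 0 := by
        rw [← h2, Finset.mul_sum]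
        refine Finset.sum_congr rfl fun j hj => ?_
        rw [Finset.mem_range] at hj
        rw [mul_smul_comm, map_smul, smul_eq_mul, ← mul_assoc]
        congr 1
        rw [show k + 1 - j = (k + 1 - m') + (m' - j) by omega, pow_add]
        ring
      refine (mul_eq_zero.1 h3).resolve_left (pow_ne_zero _ ?_)
      rw [Complex.ofReal_ne_zero]
      exact (ht _).ne'
    have hΨx : Ψ (0, x) = 0 := by
      have h1 : Tendsto (fun i => Ψ (t (σ i), y i)) atTop (𝓝 (Ψ (0, x))) :=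
        (hΨc.tendsto (0, x)).comp (htσ.prodMk_nhds hyx)
      simp only [hΨ0] at h1
      exact tendsto_nhds_unique h1 tendsto_const_nhds |>.symm ▸ rfl
    have hval : Ψ (0, x) = ((k + 1).choose m' : ℂ) *
        X.tr (X.dual (φ x) * (L ^ m' * (X.ω ^ (k + 1 - m') * X.bar g))) := by
      show ∑ j ∈ Finset.range (m' + 1), _ = _
      rw [Finset.sum_range_succ, Finset.sum_eq_zero, zero_add, Nat.sub_self, pow_zero, mul_one]
      intro j hj
      rw [Finset.mem_range] at hj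
      rw [Complex.ofReal_zero, zero_pow (by omega), mul_zero, zero_mul]
    rw [hval] at hΨx
    have hch : (((k + 1).choose m' : ℕ) : ℂ) ≠ 0 :=
      Nat.cast_ne_zero.2 (Nat.choose_pos (by omega)).ne'
    have h4 := (mul_eq_zero.1 hΨx).resolve_left hch
    obtain ⟨ρ, hρ, he⟩ := hL.pos r m' (k + 2 - m') (by omega) g hgH hm2
    have hog : X.ω * g ∈ X.H ((r : ℤ) + 1, 0 + 1) := mul_mem' X.ω_mem hgH
    rw [hxg, X.dual_of hog, smul_mul_assoc, map_smul, smul_eq_mul] at h4
    have h5 := (mul_eq_zero.1 h4).resolve_left (zpow_ne_zero _ Complex.I_ne_zero)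
    have e1 : X.ω * g * (L ^ m' * (X.ω ^ (k + 1 - m') * X.bar g)) =
        L ^ m' * (X.ω ^ (k + 2 - m') * (g * X.bar g)) := by
      rw [show k + 2 - m' = (k + 1 - m') + 1 by omega, pow_succ,
        ← mul_assoc (X.ω * g), ← pow_central hL.mem, mul_assoc (L ^ m'),
        mul_assoc X.ω g, ← mul_assoc g, ← pow_central X.ω_mem, mul_assoc (X.ω ^ (k + 1 - m')) g,
        ← mul_assoc X.ω, X.central X.ω_mem (X.ω ^ (k + 1 - m'))]
    rw [e1] at h5
    rw [h5, mul_zero] at he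
    have := hρ.ne'
    apply this
    exact_mod_cast he.symm
  -- the sum
  refine ⟨P₀.map (φ : E →ₗ[ℂ] X.R) ⊔ (kerForms X L r k).map (ml X X.ω),
    sup_le ?_ ?_, ?_, ?_⟩
  · rintro _ ⟨x, hx, rfl⟩
    exact hP₀ x hx
  · rintro _ ⟨g, hg, rfl⟩
    have := mul_mem' X.ω_mem (mem_kerForms.1 hg).1
    simpa using this
  · intro z hz
    obtain ⟨_, ⟨x, hx, rfl⟩, _, ⟨g, hg, rfl⟩, rfl⟩ := Submodule.mem_sup.1 hz
    have hk0 : L ^ k * (X.ω * g) = 0 := by
      rw [← mul_assoc, ← X.central X.ω_mem, mul_assoc, (mem_kerForms.1 hg).2, mul_zero]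
    have hog : X.ω * g ∈ X.H ((r : ℤ) + 1, 0 + 1) := mul_mem' X.ω_mem (mem_kerForms.1 hg).1
    have h1 : ∀ u, hf X L k u (X.ω * g) = 0 := by
      intro u
      unfold hf
      rw [← bar_pow hL.real, hk0, map_zero, mul_zero, map_zero]
    have h2 : ∀ u, hf X L k (X.ω * g) u = 0 := by
      intro u
      rw [hf_hom hL.mem hog, ← mul_assoc, hk0, zero_mul, map_zero, mul_zero]
    have h3 : bf X L k (φ x + X.ω * g) (φ x + X.ω * g) = bf X L k (φ x) (φ x) := by
      unfold bf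
      simp only [hf_add_left, hf_add_right, h1, h2, add_zero]
    show 0 ≤ sg ((r : ℤ) + 1) 1 * bf X L k (φ x + X.ω * g) (φ x + X.ω * g)
    rw [h3]
    exact hpos x hx
  · have h1 := Submodule.finrank_sup_add_finrank_inf_eq
      (P₀.map (φ : E →ₗ[ℂ] X.R)) ((kerForms X L r k).map (ml X X.ω))
    have h2 : P₀.map (φ : E →ₗ[ℂ] X.R) ⊓
        (kerForms X L r k).map (ml X X.ω) = ⊥ := by
      rw [eq_bot_iff]
      rintro _ ⟨⟨x, hx, rfl⟩, ⟨g, hg, hgx⟩⟩
      have h3 := hdis x hx g hg hgx.symm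
      have h4 : φ x = 0 := by
        have h5 : φ x = X.ω * g := hgx.symm
        rw [h5, h3, mul_zero]
      rw [Submodule.mem_bot]
      exact h4
    have h3 : finrank ℂ ((kerForms X L r k).map (ml X X.ω)) = finrank ℂ (kerForms X L r k) := by
      refine finrank_map_of_inj _ _ fun g hg h0 => ?_
      refine X.hl_inj r 0 (k + 2) (by push_cast; omega) g (mem_kerForms.1 hg).1 ?_
      have h5 : X.ω * g = 0 := h0
      rw [pow_succ, mul_assoc, h5, mul_zero]
    have h4 : finrank ℂ (P₀.map (φ : E →ₗ[ℂ] X.R)) = finrank ℂ P₀ :=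
      LinearEquiv.finrank_map_eq φ P₀
    rw [h2, finrank_bot, add_zero, h3, h4, hdim] at h1
    omega

/-- **Nonnegative subspace.** -/
theorem exists_nonneg (hL : SemiPositive X L) {r k : ℕ} (h : r + k + 2 = n) :
    ∃ M' : Submodule ℂ X.R, M' ≤ X.H ((r : ℤ) + 1, 1) ∧
      (∀ x ∈ M', 0 ≤ sg ((r : ℤ) + 1) 1 * bf X L k x x) ∧
      X.h ((r : ℤ) + 1) 1 + finrank ℂ (kerForms X L r k) ≤ finrank ℂ M' + X.h r 0 :=
  exists_nonneg_aux hL h (E := EuclideanSpace ℂ (Fin (finrank ℂ X.R)))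
    ((WithLp.linearEquiv 2 ℂ (Fin (finrank ℂ X.R) → ℂ)).trans
      (Module.finBasis ℂ X.R).equivFun.symm)
    (fun i => 1 / ((i : ℝ) + 1)) (fun i => by positivity) tendsto_one_div_add_atTop_nhds_zero_nat
    _ (fun _ => rfl) _ (fun _ => rfl)

end Pool.Agent.E8helper34.DI
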