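import Pool.Agent.E8helper34.DI.Semi2

/-!
# Holomorphic forms: the theorem
-/

open scoped ComplexConjugate Topology
open Module Filter

namespace Pool.Agent.E8helper34.DI

open Pool.Agent.W539.DI Pool.Agent.R929.DH

variable {n : ℕ} {X Y : KRing n} {Φ : FM X Y} {L : X.R} {L' : Y.R}

theorem rank_le (hX : SemiPositive X L) (hY : SemiPositive Y L') (hc : Intertwines Φ X.c Y.c)
    (hΦ : Intertwines Φ L L') {r k : ℕ} (h : r + k + 2 = n) :
    X.h r 0 + finrank ℂ (kerForms Y L' r k) ≤ Y.h r 0 + finrank ℂ (kerForms X L r k) := by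
  classical
  obtain ⟨S, hS, neg, hSd⟩ := exists_neg hX h
  obtain ⟨M', hM', pos, hMd⟩ := exists_nonneg hY h
  have hab : ((r : ℤ) + 1) + 1 + (k : ℤ) = n := by omega
  have hn : 0 < n := by omega
  have hker : ∀ g ∈ kerForms Y L' r k, ∀ u, hf Y L' k u g = 0 ∧ hf Y L' k g u = 0 := by
    intro g hg u
    obtain ⟨h1, h2⟩ := mem_kerForms.1 hg
    constructor
    · unfold hf
      rw [← bar_pow hY.real, h2, map_zero, mul_zero, map_zero]
    · rw [hf_hom hY.mem h1, ← mul_assoc, h2, zero_mul, map_zero, mul_zero]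
  -- the nonnegative subspace
  let P : Submodule ℂ Y.R := (Y.F ((r : ℤ) + 1) 1 (sp n) ⊔ M') ⊔ kerForms Y L' r k
  have hP1 : ∀ z ∈ P, 0 ≤ sg ((r : ℤ) + 1) 1 * bf Y L' k z z := by
    intro z hz
    obtain ⟨u, hu, g, hg, rfl⟩ := Submodule.mem_sup.1 hz
    obtain ⟨f, hf1, m, hm, rfl⟩ := Submodule.mem_sup.1 hu
    have h1 : bf Y L' k (f + m + g) (f + m + g) = bf Y L' k (f + m) (f + m) := by
      unfold bf
      rw [hf_add_left (f + m) g, hf_add_right (f + m) (f + m) g, (hker g hg _).1, (hker g hg _).2]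
      ring
    rw [h1, (bf_sup hY.mem hab n hf1 (hM' hm)).1]
    exact pos m hm
  have hGle : kerForms Y L' r k ≤ Y.H ((r : ℤ) + 1 + -1, 1 + -1) := by
    have e : (((r : ℤ) + 1 + -1, 1 + -1) : ℤ × ℤ) = ((r : ℤ), 0) := by ext <;> simp
    rw [e]
    exact inf_le_left
  have hFM : Y.F ((r : ℤ) + 1) 1 (sp n) ⊔ M' ≤ Y.F ((r : ℤ) + 1) 1 (insert 0 (sp n)) := by
    refine sup_le ?_ ?_
    · exact F_ind fun k hk x hx => Y.mem_F (Finset.mem_insert_of_mem hk) hx
    · intro m hm
      refine Y.mem_F (Finset.mem_insert_self 0 _) ?_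
      rw [add_zero, add_zero]
      exact hM' hm
  have hP2 : P ≤ ⨆ t : ℤ, Y.H ((r : ℤ) + 1 + t, 1 + t) := by
    refine sup_le (hFM.trans (F_le _ _ _)) ?_
    exact hGle.trans (le_iSup (fun t : ℤ => Y.H ((r : ℤ) + 1 + t, 1 + t)) (-1))
  have hP3 : finrank ℂ P = hs Y ((r : ℤ) + 1) 1 (sp n) + finrank ℂ M' +
      finrank ℂ (kerForms Y L' r k) := by
    have hd : Disjoint (kerForms Y L' r k) (Y.F ((r : ℤ) + 1) 1 (sp n) ⊔ M') := by
      have h1 := (Y.indep ((r : ℤ) + 1) 1).disjoint_biSup (x := -1)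
        (y := ((insert 0 (sp n) : Finset ℤ) : Set ℤ)) (by
          intro h
          rw [Finset.mem_coe, Finset.mem_insert, mem_sp] at h
          omega)
      exact (h1.mono_left hGle).mono_right hFM
    have h1 := Submodule.finrank_sup_add_finrank_inf_eq (Y.F ((r : ℤ) + 1) 1 (sp n) ⊔ M')
      (kerForms Y L' r k)
    rw [inf_comm, hd.eq_bot, finrank_bot, add_zero, finrank_sup' hM'] at h1
    exact h1
  -- the whole space
  have hT : finrank ℂ (⨆ t : ℤ, Y.H ((r : ℤ) + 1 + t, 1 + t) : Submodule ℂ Y.R) =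
      Y.h r 0 + (Y.h ((r : ℤ) + 1) 1 + hs Y ((r : ℤ) + 1) 1 (sp n)) := by
    have h0 : hs Y ((r : ℤ) + 1) 1 (sm n) = Y.h r 0 := by
      rw [hs_sm, Finset.sum_eq_single 0]
      · norm_num
      · intro j _ hj
        refine Y.h_neg (Or.inr ?_)
        omega
      · intro h0
        exact absurd (Finset.mem_range.2 hn) h0
    rw [← h0, Y.total_all ((r : ℤ) + 1) 1 (sm n ∪ ({0} ∪ sp n)) ?_, Finset.sum_union,
      Finset.sum_union, Finset.sum_singleton, add_zero, add_zero]
    · rfl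
    · rw [Finset.disjoint_left]
      intro k hk hk2
      rw [Finset.mem_singleton] at hk
      rw [mem_sp] at hk2
      omega
    · rw [Finset.disjoint_left]
      intro k hk hk2
      rw [mem_sm] at hk
      rw [Finset.mem_union, Finset.mem_singleton, mem_sp] at hk2
      omega
    · intro k hk
      rw [Finset.mem_union, Finset.mem_union, Finset.mem_singleton, mem_sp, mem_sm] at hk
      omega
  -- comparison
  let S' : Submodule ℂ Y.R := S.map (Φ.φ : X.R →ₗ[ℂ] Y.R)
  have hS'1 : S' ≤ ⨆ t : ℤ, Y.H ((r : ℤ) + 1 + t, 1 + t) := by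
    rw [← Φ.hodge ((r : ℤ) + 1) 1]
    exact Submodule.map_mono hS
  have hS'2 : S' ⊓ P = ⊥ := by
    rw [eq_bot_iff]
    rintro _ ⟨⟨x, hx, rfl⟩, hxP⟩
    rw [Submodule.mem_bot]
    by_contra hne
    have hx0 : x ≠ 0 := fun h0 => hne (by rw [h0, map_zero])
    have h1 := neg x hx hx0
    have h2 := hP1 _ hxP
    have h3 : bf Y L' k (Φ.φ x) (Φ.φ x) = bf X L k x x := bf_iso hc hΦ k x x
    have h4 : 0 ≤ sg ((r : ℤ) + 1) 1 * bf Y L' k (Φ.φ x) (Φ.φ x) := h2
    rw [h3] at h4
    linarith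
  have hS'3 : finrank ℂ S' = finrank ℂ S := LinearEquiv.finrank_map_eq Φ.φ S
  have h1 := Submodule.finrank_sup_add_finrank_inf_eq S' P
  rw [hS'2, finrank_bot, add_zero, hS'3, hP3] at h1
  have h2 := Submodule.finrank_mono (sup_le hS'1 hP2)
  rw [hT] at h2
  omega

/-- The space `L ^ j · H⁰(X, Ω^r)`. -/
noncomputable def formsRank (X : KRing n) (L : X.R) (r j : ℕ) : ℕ :=
  finrank ℂ ((X.H ((r : ℤ), 0)).map (ml X (L ^ j)))

theorem formsRank_add (X : KRing n) (L : X.R) (r j : ℕ) :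
    formsRank X L r j + finrank ℂ (kerForms X L r j) = X.h r 0 :=
  finrank_map_ker (ml X (L ^ j)) (X.H ((r : ℤ), 0))

theorem rank_eq (hX : SemiPositive X L) (hY : SemiPositive Y L') (hc : Intertwines Φ X.c Y.c)
    (hΦ : Intertwines Φ L L') {r k : ℕ} (h : r + k + 2 = n) :
    formsRank X L r k = formsRank Y L' r k := by
  have h1 := rank_le hX hY hc hΦ h
  have h2 := rank_le (Φ := symm Φ) hY hX hc.symm hΦ.symm h
  have h3 := formsRank_add X L r k
  have h4 := formsRank_add Y L' r k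
  omega

/-- `h^{n,0}` and `h^{n-1,0}`. -/
theorem top_forms (Φ : FM X Y) {r : ℕ} (h : r = n ∨ r + 1 = n) : X.h r 0 = Y.h r 0 := by
  rcases h with h | h
  · have h1 := Φ.total_all r 0 {0} (by
      intro k hk
      rw [Finset.mem_singleton] at hk
      omega)
    rw [Finset.sum_singleton, Finset.sum_singleton, add_zero, add_zero] at h1
    exact h1
  · have h1 := Φ.total_all r 0 {0, 1} (by
      intro k hk
      rw [Finset.mem_insert, Finset.mem_singleton] at hk
      omega)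
    rw [Finset.sum_insert (by decide), Finset.sum_insert (by decide), Finset.sum_singleton,
      Finset.sum_singleton, add_zero, add_zero] at h1
    have e : ∀ Z : KRing n, Z.h ((r : ℤ) + 1) (0 + 1) = Z.h r 0 := fun Z =>
      (Z.h_symm (p := (r : ℤ)) (q := 0) 1 (by push_cast; omega)).symm
    rw [e X, e Y] at h1
    omega

/-- Equality of the numbers of holomorphic forms. -/
theorem forms_eq (hX : SemiPositive X L) (hY : SemiPositive Y L') (hc : Intertwines Φ X.c Y.c)
    (hΦ : Intertwines Φ L L')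
    (hker : ∀ r k : ℕ, r + k + 2 = n →
      finrank ℂ (kerForms X L r k) = finrank ℂ (kerForms Y L' r k)) (q : ℕ) :
    X.h q 0 = Y.h q 0 := by
  by_cases h2 : q + 2 ≤ n
  · obtain ⟨k, hk⟩ := Nat.exists_eq_add_of_le h2
    have hk' : q + k + 2 = n := by omega
    have h3 := rank_eq hX hY hc hΦ hk'
    have h4 := formsRank_add X L q k
    have h5 := formsRank_add Y L' q k
    have h6 := hker q k hk'
    omega
  · by_cases h3 : q ≤ n
    · exact top_forms Φ (by omega)
    · rw [X.h_zero (by omega), Y.h_zero (by omega)]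

end Pool.Agent.E8helper34.DI
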